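import Pool.Agent.LibBG45.Stage

set_option autoImplicit false
set_option linter.unusedSectionVars false

namespace Pool.Agent.LibBG45

open Finset
open scoped Classical

variable {α β : Type}

lemma card_cols (G : Finset (α × β)) (A : Finset α) (B : Finset β) :
    (G ∩ A ×ˢ B).card = ∑ y ∈ B, (G ∩ A ×ˢ {y}).card := by
  have h1 : G ∩ A ×ˢ B = B.biUnion (fun y => G ∩ A ×ˢ {y}) := by
    ext e
    simp only [Finset.mem_inter, Finset.mem_product, Finset.mem_biUnion, Finset.mem_singleton]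
    constructor
    · rintro ⟨h1, h2, h3⟩
      exact ⟨e.2, h3, h1, h2, rfl⟩
    · rintro ⟨y, hy, h1, h2, h3⟩
      exact ⟨h1, h2, h3 ▸ hy⟩
  rw [h1, Finset.card_biUnion]
  intro y _ z _ hne
  change Disjoint (G ∩ A ×ˢ {y}) (G ∩ A ×ˢ {z})
  rw [Finset.disjoint_left]
  intro e he he'
  simp only [Finset.mem_inter, Finset.mem_product, Finset.mem_singleton] at he he'
  exact hne (he.2.2.symm.trans he'.2.2)

lemma card_split (G : Finset (α × β)) {A W : Finset α} (hW : W ⊆ A) (B : Finset β) :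
    (G ∩ A ×ˢ B).card = (G ∩ W ×ˢ B).card + (G ∩ (A \ W) ×ˢ B).card := by
  rw [← Finset.card_union_of_disjoint]
  · congr 1
    ext e
    simp only [Finset.mem_inter, Finset.mem_product, Finset.mem_union, Finset.mem_sdiff]
    constructor
    · rintro ⟨h1, h2, h3⟩
      by_cases h4 : e.1 ∈ W
      · exact Or.inl ⟨h1, h4, h3⟩
      · exact Or.inr ⟨h1, ⟨h2, h4⟩, h3⟩
    · rintro (⟨h1, h2, h3⟩ | ⟨h1, h2, h3⟩)
      · exact ⟨h1, hW h2, h3⟩
      · exact ⟨h1, h2.1, h3⟩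
  · rw [Finset.disjoint_left]
    intro e he he'
    simp only [Finset.mem_inter, Finset.mem_product, Finset.mem_sdiff] at he he'
    exact he'.2.1.2 he.2.1

lemma card_rect_le (G : Finset (α × β)) (A : Finset α) (B : Finset β) :
    ((G ∩ A ×ˢ B).card : ℝ) ≤ A.card * B.card := by
  have h := Finset.card_le_card (Finset.inter_subset_right : G ∩ A ×ˢ B ⊆ A ×ˢ B)
  rw [Finset.card_product] at h
  exact_mod_cast h

/-- bicliques of `G` contain few edges of `E` -/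
def Sparse (G E : Finset (α × β)) (η : ℝ) : Prop :=
  ∀ (S : Finset α) (T : Finset β), S.Nonempty → T.Nonempty → S ×ˢ T ⊆ G →
    ((E ∩ S ×ˢ T).card : ℝ) * η ≤ S.card + T.card

variable [Fintype α] [Fintype β]

lemma facts (G E : Finset (α × β)) (n η H D0 : ℝ)
    (hcard : (Fintype.card α : ℝ) + Fintype.card β ≤ n) (hη : 0 < η) (hH : 0 < H)
    (hE : Sparse G E η) (B0 : Finset β)
    (hdE : ∀ y ∈ B0, 2 * H ≤ ((E ∩ univ ×ˢ {y}).card : ℝ))
    (hdG : ∀ y ∈ B0, D0 ≤ ((G ∩ univ ×ˢ {y}).card : ℝ) ∧ ((G ∩ univ ×ˢ {y}).card : ℝ) ≤ D0 + H)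
    (U : Finset α) (B : Finset β) (hUB : U ×ˢ B ⊆ G) (hBB : B ⊆ B0) (hB : B.Nonempty)
    (hb : n ≤ η * H * B.card) :
    H * B.card ≤ (E ∩ Uᶜ ×ˢ B).card ∧ (D0 - U.card) * B.card ≤ (G ∩ Uᶜ ×ˢ B).card ∧
      ((G ∩ Uᶜ ×ˢ B).card : ℝ) ≤ (D0 + H - U.card) * B.card := by
  have hsplit : ∀ K : Finset (α × β), ((K ∩ univ ×ˢ B).card : ℝ) =
      (K ∩ U ×ˢ B).card + (K ∩ Uᶜ ×ˢ B).card := by
    intro K
    have h := card_split K (Finset.subset_univ U) B
    rw [← Finset.compl_eq_univ_sdiff] at h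
    exact_mod_cast h
  have hcols : ∀ K : Finset (α × β), ((K ∩ univ ×ˢ B).card : ℝ) =
      ∑ y ∈ B, ((K ∩ univ ×ˢ {y}).card : ℝ) := by
    intro K
    rw [card_cols]; push_cast; rfl
  have hGU : ((G ∩ U ×ˢ B).card : ℝ) = U.card * B.card := by
    rw [Finset.inter_eq_right.2 hUB, Finset.card_product]; push_cast; rfl
  have hEU : ((E ∩ U ×ˢ B).card : ℝ) ≤ H * B.card := by
    rcases Finset.eq_empty_or_nonempty U with h0 | hU
    · rw [h0]
      simp only [Finset.empty_product, Finset.inter_empty, Finset.card_empty, Nat.cast_zero]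
      positivity
    · have h1 := hE U B hU hB hUB
      have h2 : (U.card : ℝ) ≤ Fintype.card α := by exact_mod_cast Finset.card_le_univ U
      have h3 : (B.card : ℝ) ≤ Fintype.card β := by exact_mod_cast Finset.card_le_univ B
      have h4 : ((E ∩ U ×ˢ B).card : ℝ) * η ≤ (H * B.card) * η := by nlinarith
      exact le_of_mul_le_mul_right h4 hη
  refine ⟨?_, ?_, ?_⟩
  · have h1 := hsplit E
    rw [hcols] at h1
    have h2 : 2 * H * B.card ≤ ∑ y ∈ B, ((E ∩ univ ×ˢ {y}).card : ℝ) := by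
      calc 2 * H * B.card = ∑ _y ∈ B, 2 * H := by
            rw [Finset.sum_const, nsmul_eq_mul, mul_comm]
        _ ≤ _ := Finset.sum_le_sum fun y hy => hdE y (hBB hy)
    linarith
  · have h1 := hsplit G
    rw [hcols, hGU] at h1
    have h2 : D0 * B.card ≤ ∑ y ∈ B, ((G ∩ univ ×ˢ {y}).card : ℝ) := by
      calc D0 * B.card = ∑ _y ∈ B, D0 := by
            rw [Finset.sum_const, nsmul_eq_mul, mul_comm]
        _ ≤ _ := Finset.sum_le_sum fun y hy => (hdG y (hBB hy)).1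
    linarith
  · have h1 := hsplit G
    rw [hcols, hGU] at h1
    have h2 : ∑ y ∈ B, ((G ∩ univ ×ˢ {y}).card : ℝ) ≤ (D0 + H) * B.card := by
      calc ∑ y ∈ B, ((G ∩ univ ×ˢ {y}).card : ℝ) ≤ ∑ _y ∈ B, (D0 + H) :=
            Finset.sum_le_sum fun y hy => (hdG y (hBB hy)).2
        _ = _ := by rw [Finset.sum_const, nsmul_eq_mul, mul_comm]
    linarith

lemma tower_step (v : ℕ) (hv : 16 ≤ v) : (v : ℝ) * (v * (2 : ℝ) ^ ((v : ℝ) * v)) ≤
    ((2 ^ 2 ^ v : ℕ) : ℝ) := by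
  have h1 : v + v * v ≤ 2 ^ v := by
    induction v, hv using Nat.le_induction with
    | base => norm_num
    | succ v hv ih =>
      rw [pow_succ]
      nlinarith
  have h2 : v * v ≤ 2 ^ v := by omega
  have h3 : v * v * 2 ^ (v * v) ≤ 2 ^ 2 ^ v := by
    calc v * v * 2 ^ (v * v) ≤ 2 ^ v * 2 ^ (v * v) := Nat.mul_le_mul_right _ h2
      _ = 2 ^ (v + v * v) := by rw [pow_add]
      _ ≤ 2 ^ 2 ^ v := Nat.pow_le_pow_right (by norm_num) h1
  have h4 : (2 : ℝ) ^ ((v : ℝ) * v) = ((2 ^ (v * v) : ℕ) : ℝ) := by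
    have : ((v : ℝ) * v) = ((v * v : ℕ) : ℝ) := by push_cast; ring
    rw [this, Real.rpow_natCast]; push_cast; rfl
  rw [h4, ← mul_assoc]
  exact_mod_cast h3

lemma grow (G : Finset (α × β)) (μ : ℝ) (hμ : 0 < μ) (hF : Large G μ)
    (n H : ℝ) (hn : (Fintype.card α : ℝ) ≤ n) (hn0 : 0 < n) (hH : 0 < H)
    (v : ℕ) (hv : 16 ≤ v) (hv1 : 4 * μ / H ≤ v) (hv2 : 32 * n * μ / H ^ 2 ≤ v)
    (U : Finset α) (B : Finset β) (hUB : U ×ˢ B ⊆ G) (hB : B.Nonempty)
    (hnB : n ≤ v * B.card) (y w : ℝ) (hw : 0 < w)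
    (hy : H / 4 * B.card ≤ y) (hwy : H ^ 2 / 16 * B.card ≤ w * y)
    (hW : ∀ W ⊆ Uᶜ, ((G ∩ (Uᶜ \ W) ×ˢ B).card : ℝ) < y → w ≤ W.card) :
    ∃ (U' : Finset α) (B' : Finset β), U' ×ˢ B' ⊆ G ∧ B' ⊆ B ∧ B'.Nonempty ∧
      n ≤ ((2 ^ 2 ^ v : ℕ) : ℝ) * B'.card ∧
      (U.card : ℝ) + w * y / (2 * μ * B.card) ≤ U'.card := by
  have hBpos : (0 : ℝ) < B.card := by exact_mod_cast hB.card_pos
  have hy0 : 0 < y := lt_of_lt_of_le (by positivity) hy
  obtain ⟨U', B', -, h2, h3, h4, h5, h6⟩ := stage G μ hμ hF n hn hn0 U B hUB hB y w hy0 hw hW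
  refine ⟨U', B', h3, h2, h4, ?_, h5⟩
  have hvr : (16 : ℝ) ≤ v := by exact_mod_cast hv
  have hB'pos : (0 : ℝ) < B'.card := by exact_mod_cast h4.card_pos
  have e1 : n * μ / y ≤ (v : ℝ) * v := by
    rw [div_le_iff₀ hy0]
    rw [div_le_iff₀ hH] at hv1
    have k1 : n * μ ≤ (v * B.card) * μ := mul_le_mul_of_nonneg_right hnB hμ.le
    have k2 : (v : ℝ) * v * (H / 4 * B.card) ≤ v * v * y :=
      mul_le_mul_of_nonneg_left hy (by positivity)
    have k3 : (v * B.card : ℝ) * (4 * μ) ≤ (v * B.card) * (v * H) :=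
      mul_le_mul_of_nonneg_left hv1 (by positivity)
    nlinarith
  have e2 : (2 : ℝ) ^ (n * μ / y) ≤ (2 : ℝ) ^ ((v : ℝ) * v) :=
    Real.rpow_le_rpow_of_exponent_le (by norm_num) e1
  have e3 := tower_step v hv
  obtain ⟨R, hR⟩ : ∃ R : ℝ, R = (2 : ℝ) ^ ((v : ℝ) * v) := ⟨_, rfl⟩
  rw [← hR] at e2 e3
  have hR0 : 0 < R := by rw [hR]; positivity
  have e4 : w * y / μ ≤ 2 * n * (R * B'.card) := by
    refine h6.trans ?_
    apply mul_le_mul_of_nonneg_left _ (by linarith)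
    exact mul_le_mul_of_nonneg_right e2 hB'pos.le
  -- B.card is bounded
  have e5 : (B.card : ℝ) ≤ v * (R * B'.card) := by
    rw [div_le_iff₀ hμ] at e4
    rw [div_le_iff₀ (by positivity)] at hv2
    have k1 : H ^ 2 / 16 * B.card ≤ 2 * n * (R * B'.card) * μ := hwy.trans e4
    have k2 : 32 * n * μ * (R * B'.card) ≤ v * H ^ 2 * (R * B'.card) :=
      mul_le_mul_of_nonneg_right hv2 (by positivity)
    have k3 : H ^ 2 * B.card ≤ H ^ 2 * (v * (R * B'.card)) := by linarith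
    exact le_of_mul_le_mul_left k3 (by positivity)
  calc n ≤ v * B.card := hnB
    _ ≤ v * (v * (R * B'.card)) := mul_le_mul_of_nonneg_left e5 (by positivity)
    _ = (v * (v * R)) * B'.card := by ring
    _ ≤ _ := mul_le_mul_of_nonneg_right e3 hB'pos.le

section chain

variable (G E : Finset (α × β)) (hEG : E ⊆ G) (n μ η q H D0 : ℝ) (m J m0 : ℕ) (B0 : Finset β)
  (hcard : (Fintype.card α : ℝ) + Fintype.card β ≤ n) (hn0 : 0 < n) (hμ : 0 < μ) (hη : 0 < η)
  (hq : 0 < q) (hq4 : q ≤ 4) (hH : 0 < H)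
  (hF : Large G μ) (hE : Sparse G E η)
  (hsp : ∀ (A : Finset α) (B : Finset β), m0 ≤ A.card → m0 ≤ B.card →
    ((E ∩ A ×ˢ B).card : ℝ) ≤ q * A.card * B.card)
  (hdE : ∀ y ∈ B0, 2 * H ≤ ((E ∩ univ ×ˢ {y}).card : ℝ))
  (hdG : ∀ y ∈ B0, D0 ≤ ((G ∩ univ ×ˢ {y}).card : ℝ) ∧ ((G ∩ univ ×ˢ {y}).card : ℝ) ≤ D0 + H)
  (hB0 : n ≤ (tow m : ℝ) * B0.card) (hm : 16 ≤ tow m)
  (hL1 : 4 * μ / H ≤ tow m) (hL2 : 32 * n * μ / H ^ 2 ≤ tow m)
  (hV1 : (tow (m + 4 * J) : ℝ) ≤ η * H) (hV2 : (m0 : ℝ) * tow (m + 4 * J) ≤ n)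
  (hm0 : 2 * (m0 : ℝ) < H)

include hcard hn0 hμ hη hH hF hE hdE hdG hB0 hm hL1 hL2 hV1 hEG in
lemma phase1 : ∀ j ≤ J, ∃ (U : Finset α) (B : Finset β), U ×ˢ B ⊆ G ∧ B ⊆ B0 ∧ B.Nonempty ∧
    n ≤ (tow (m + 2 * j) : ℝ) * B.card ∧ (j : ℝ) * (D0 + H - U.card) ≤ 32 * μ := by
  intro j
  induction j with
  | zero =>
    intro _
    refine ⟨∅, B0, by simp, subset_rfl, ?_, by simpa using hB0, by simp; positivity⟩
    rw [← Finset.card_pos]
    by_contra h0
    have : B0.card = 0 := by omega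
    rw [this] at hB0
    simp only [Nat.cast_zero, mul_zero] at hB0
    linarith
  | succ j ih =>
    intro hj
    obtain ⟨U, B, h1, h2, h3, h4, h5⟩ := ih (by omega)
    have hBpos : (0 : ℝ) < B.card := by exact_mod_cast h3.card_pos
    obtain ⟨v, hv⟩ : ∃ v : ℕ, v = tow (m + 2 * j) := ⟨_, rfl⟩
    have hmv : tow m ≤ v := by rw [hv]; exact tow_mono (by omega)
    have hmvr : (tow m : ℝ) ≤ v := by exact_mod_cast hmv
    have hvV : (v : ℝ) ≤ tow (m + 4 * J) := by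
      rw [hv]; exact_mod_cast tow_mono (by omega)
    rw [← hv] at h4
    have hb : n ≤ η * H * B.card :=
      h4.trans (mul_le_mul_of_nonneg_right (hvV.trans hV1) hBpos.le)
    obtain ⟨f1, f2, f3⟩ := facts G E n η H D0 hcard hη hH hE B0 hdE hdG U B h1 h2 h3 hb
    obtain ⟨X, hX⟩ : ∃ X : ℝ, X = D0 + H - U.card := ⟨_, rfl⟩
    rw [← hX] at f3 h5
    have hEGc : ((E ∩ Uᶜ ×ˢ B).card : ℝ) ≤ (G ∩ Uᶜ ×ˢ B).card := by
      exact_mod_cast Finset.card_le_card (Finset.inter_subset_inter_right hEG)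
    have hXH : H ≤ X := le_of_mul_le_mul_right (f1.trans (hEGc.trans f3)) hBpos
    have hG2 : X / 2 * B.card ≤ (G ∩ Uᶜ ×ˢ B).card := by
      have f2' : (X - H) * B.card ≤ (G ∩ Uᶜ ×ˢ B).card := by
        rw [hX]
        calc (D0 + H - U.card - H) * (B.card : ℝ) = (D0 - U.card) * B.card := by ring
          _ ≤ _ := f2
      nlinarith
    obtain ⟨U', B', g1, g2, g3, g4, g5⟩ := grow G μ hμ hF n H
      (by have : (0 : ℝ) ≤ Fintype.card β := Nat.cast_nonneg _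
          linarith) hn0 hH v (hm.trans hmv)
      (hL1.trans hmvr) (hL2.trans hmvr) U B h1 h3 h4 (X / 4 * B.card) (X / 4) (by linarith)
      (mul_le_mul_of_nonneg_right (by linarith) hBpos.le)
      (by
        have : H ^ 2 ≤ X ^ 2 := pow_le_pow_left₀ hH.le hXH 2
        nlinarith)
      (by
        intro W hWU hWlt
        have k1 := card_split G hWU B
        have k2 : ((G ∩ Uᶜ ×ˢ B).card : ℝ) = (G ∩ W ×ˢ B).card + (G ∩ (Uᶜ \ W) ×ˢ B).card := by
          exact_mod_cast k1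
        have k3 := card_rect_le G W B
        have k4 : X / 4 * B.card ≤ W.card * B.card := by linarith
        exact le_of_mul_le_mul_right k4 hBpos)
    refine ⟨U', B', g1, g2.trans h2, g3, ?_, ?_⟩
    · have e1 : tow (m + 2 * (j + 1)) = 2 ^ 2 ^ v := by
        rw [hv, show m + 2 * (j + 1) = (m + 2 * j + 1) + 1 by ring]
        rfl
      rw [e1]; exact g4
    · have e1 : X / 4 * (X / 4 * B.card) / (2 * μ * B.card) = X ^ 2 / (32 * μ) := by
        field_simp; ring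
      rw [e1] at g5
      have hX0 : 0 < X := by linarith
      obtain ⟨t, ht⟩ : ∃ t : ℝ, t = X / (32 * μ) := ⟨_, rfl⟩
      have ht0 : 0 < t := by rw [ht]; positivity
      have hXt : X = 32 * μ * t := by rw [ht]; field_simp
      have e2 : X ^ 2 / (32 * μ) = 32 * μ * t ^ 2 := by rw [hXt]; field_simp
      have e3 : (j : ℝ) * t ≤ 1 := by
        have : (32 * μ) * (j * t) ≤ (32 * μ) * 1 := by rw [hXt] at h5; linarith
        exact le_of_mul_le_mul_left this (by positivity)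
      have e4 : D0 + H - (U'.card : ℝ) ≤ 32 * μ * (t - t ^ 2) := by
        have : D0 + H - (U.card : ℝ) = 32 * μ * t := by rw [← hX, hXt]
        rw [e2] at g5
        linarith
      have hj0 : (0 : ℝ) ≤ j := Nat.cast_nonneg j
      have e5 : ((j : ℝ) + 1) * (t - t ^ 2) ≤ 1 := by
        rcases le_total t 1 with h | h
        · have k1 : (j * t) * (1 - t) ≤ 1 * (1 - t) :=
            mul_le_mul_of_nonneg_right e3 (by linarith)
          nlinarith
        · have k1 : t - t ^ 2 ≤ 0 := by nlinarith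
          have k2 : ((j : ℝ) + 1) * (t - t ^ 2) ≤ 0 :=
            mul_nonpos_of_nonneg_of_nonpos (by linarith) k1
          linarith
      push_cast
      calc ((j : ℝ) + 1) * (D0 + H - U'.card) ≤ ((j : ℝ) + 1) * (32 * μ * (t - t ^ 2)) :=
            mul_le_mul_of_nonneg_left e4 (by linarith)
        _ = 32 * μ * (((j : ℝ) + 1) * (t - t ^ 2)) := by ring
        _ ≤ 32 * μ * 1 := mul_le_mul_of_nonneg_left e5 (by positivity)
        _ = 32 * μ := mul_one _

include hcard hn0 hμ hη hH hF hE hdE hdG hB0 hm hL1 hL2 hV1 hEG hq hq4 hsp hV2 hm0 in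
lemma phase2 : ∀ i ≤ J, ∃ (U : Finset α) (B : Finset β), U ×ˢ B ⊆ G ∧ B ⊆ B0 ∧ B.Nonempty ∧
    n ≤ (tow (m + 2 * J + 2 * i) : ℝ) * B.card ∧
    (J : ℝ) * (D0 + H - U.card) + J * (i * (H ^ 2 / (8 * q * μ))) ≤ 32 * μ := by
  intro i
  induction i with
  | zero =>
    intro _
    obtain ⟨U, B, h1, h2, h3, h4, h5⟩ := phase1 G E hEG n μ η H D0 m J B0 hcard hn0 hμ hη hH hF hE
      hdE hdG hB0 hm hL1 hL2 hV1 J le_rfl
    exact ⟨U, B, h1, h2, h3, by simpa using h4, by simpa using h5⟩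
  | succ i ih =>
    intro hi
    obtain ⟨U, B, h1, h2, h3, h4, h5⟩ := ih (by omega)
    have hBpos : (0 : ℝ) < B.card := by exact_mod_cast h3.card_pos
    obtain ⟨v, hv⟩ : ∃ v : ℕ, v = tow (m + 2 * J + 2 * i) := ⟨_, rfl⟩
    have hmv : tow m ≤ v := by rw [hv]; exact tow_mono (by omega)
    have hmvr : (tow m : ℝ) ≤ v := by exact_mod_cast hmv
    have hvV : (v : ℝ) ≤ tow (m + 4 * J) := by
      rw [hv]; exact_mod_cast tow_mono (by omega)
    rw [← hv] at h4
    have hb : n ≤ η * H * B.card :=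
      h4.trans (mul_le_mul_of_nonneg_right (hvV.trans hV1) hBpos.le)
    obtain ⟨f1, f2, f3⟩ := facts G E n η H D0 hcard hη hH hE B0 hdE hdG U B h1 h2 h3 hb
    have hvpos : (0 : ℝ) < v := by
      have : (16 : ℝ) ≤ v := by exact_mod_cast hm.trans hmv
      linarith
    have hm0B : m0 ≤ B.card := by
      have k1 : (m0 : ℝ) * v ≤ v * B.card := by
        have k2 : (m0 : ℝ) * v ≤ m0 * tow (m + 4 * J) :=
          mul_le_mul_of_nonneg_left hvV (Nat.cast_nonneg _)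
        linarith
      have k2 : (m0 : ℝ) ≤ B.card := by
        rw [mul_comm] at k1
        exact le_of_mul_le_mul_left k1 hvpos
      exact_mod_cast k2
    obtain ⟨U', B', g1, g2, g3, g4, g5⟩ := grow G μ hμ hF n H
      (by have : (0 : ℝ) ≤ Fintype.card β := Nat.cast_nonneg _
          linarith) hn0 hH v (hm.trans hmv)
      (hL1.trans hmvr) (hL2.trans hmvr) U B h1 h3 h4 (H / 2 * B.card) (H / (2 * q)) (by positivity)
      (mul_le_mul_of_nonneg_right (by linarith) hBpos.le)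
      (by
        have e1 : H / (2 * q) * (H / 2 * B.card) = H ^ 2 / (4 * q) * B.card := by
          field_simp; ring
        rw [e1]
        apply mul_le_mul_of_nonneg_right _ hBpos.le
        apply div_le_div_of_nonneg_left (by positivity) (by positivity) (by linarith))
      (by
        intro W hWU hWlt
        have k1 := card_split E hWU B
        have k2 : ((E ∩ Uᶜ ×ˢ B).card : ℝ) = (E ∩ W ×ˢ B).card + (E ∩ (Uᶜ \ W) ×ˢ B).card := by
          exact_mod_cast k1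
        have k3 : ((E ∩ (Uᶜ \ W) ×ˢ B).card : ℝ) ≤ (G ∩ (Uᶜ \ W) ×ˢ B).card := by
          exact_mod_cast Finset.card_le_card (Finset.inter_subset_inter_right hEG)
        have k4 : H / 2 * B.card ≤ (E ∩ W ×ˢ B).card := by linarith
        rcases le_or_gt m0 W.card with hW | hW
        · have k5 := hsp W B hW hm0B
          have k6 : H / 2 * B.card ≤ (q * W.card) * B.card := k4.trans k5
          have k7 := le_of_mul_le_mul_right k6 hBpos
          rw [div_le_iff₀ (by positivity)]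
          linarith
        · exfalso
          have k5 := card_rect_le E W B
          have k6 : (W.card : ℝ) ≤ m0 := by exact_mod_cast hW.le
          have k7 : H / 2 * B.card ≤ (m0 : ℝ) * B.card :=
            k4.trans (k5.trans (mul_le_mul_of_nonneg_right k6 hBpos.le))
          have k8 := le_of_mul_le_mul_right k7 hBpos
          linarith)
    refine ⟨U', B', g1, g2.trans h2, g3, ?_, ?_⟩
    · have e1 : tow (m + 2 * J + 2 * (i + 1)) = 2 ^ 2 ^ v := by
        rw [hv, show m + 2 * J + 2 * (i + 1) = (m + 2 * J + 2 * i + 1) + 1 by ring]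
        rfl
      rw [e1]; exact g4
    · have e1 : H / (2 * q) * (H / 2 * B.card) / (2 * μ * B.card) = H ^ 2 / (8 * q * μ) := by
        field_simp; ring
      rw [e1] at g5
      have hJ0 : (0 : ℝ) ≤ J := Nat.cast_nonneg J
      have k1 := mul_le_mul_of_nonneg_left g5 hJ0
      push_cast
      nlinarith

include hcard hn0 hμ hη hH hF hE hdE hdG hB0 hm hL1 hL2 hV1 hEG hq hq4 hsp hV2 hm0 in
theorem chain : (J : ℝ) ^ 2 * H ^ 2 ≤ 256 * q * μ ^ 2 := by
  obtain ⟨U, B, h1, h2, h3, h4, h5⟩ := phase2 G E hEG n μ η q H D0 m J m0 B0 hcard hn0 hμ hη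
    hq hq4 hH hF hE hsp hdE hdG hB0 hm hL1 hL2 hV1 hV2 hm0 J le_rfl
  have hBpos : (0 : ℝ) < B.card := by exact_mod_cast h3.card_pos
  have e0 : m + 2 * J + 2 * J = m + 4 * J := by ring
  rw [e0] at h4
  have hb : n ≤ η * H * B.card := h4.trans (mul_le_mul_of_nonneg_right hV1 hBpos.le)
  obtain ⟨f1, f2, f3⟩ := facts G E n η H D0 hcard hη hH hE B0 hdE hdG U B h1 h2 h3 hb
  have hEGc : ((E ∩ Uᶜ ×ˢ B).card : ℝ) ≤ (G ∩ Uᶜ ×ˢ B).card := by
    exact_mod_cast Finset.card_le_card (Finset.inter_subset_inter_right hEG)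
  have hXH : H ≤ D0 + H - U.card := le_of_mul_le_mul_right (f1.trans (hEGc.trans f3)) hBpos
  have hJ0 : (0 : ℝ) ≤ J := Nat.cast_nonneg J
  have k1 : 0 ≤ (J : ℝ) * (D0 + H - U.card) := mul_nonneg hJ0 (by linarith)
  have k2 : (J : ℝ) * (J * (H ^ 2 / (8 * q * μ))) ≤ 32 * μ := by linarith
  have k3 : (J : ℝ) * (J * (H ^ 2 / (8 * q * μ))) = (J : ℝ) ^ 2 * H ^ 2 / (8 * q * μ) := by ring
  rw [k3, div_le_iff₀ (by positivity)] at k2
  nlinarith

end chain

end Pool.Agent.LibBG45
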