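import Pool.Agent.H59.BicliqueProof
import Pool.Agent.LibBG45.Chain

/-
Facts about mu and eta (after helper32's file for the same project).
-/

set_option autoImplicit false

namespace Pool.Agent.LibBG45

open Finset
open scoped Classical
open Pool.Agent.H59.Biclique

variable {α β : Type} [Fintype α] [Fintype β]

lemma kap_attained {G : Finset (α × β)} {A : Finset α}
    {B : Finset β} (hne : (G ∩ A ×ˢ B).Nonempty) : ∃ (X : Finset α) (Y : Finset β),
      X ⊆ A ∧ Y ⊆ B ∧ IsBiclique G X Y ∧ kappa G A B = harm X.card Y.card := by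
  have h1 : {x : ℝ | ∃ (S : Finset α) (T : Finset β), S ⊆ A ∧ T ⊆ B ∧ IsBiclique G S T ∧
      x = harm S.card T.card}.Nonempty := by
    obtain ⟨⟨a, b⟩, hab⟩ := hne
    rw [Finset.mem_inter, Finset.mem_product] at hab
    refine ⟨_, {a}, {b}, ?_, ?_, ⟨Finset.singleton_nonempty a, Finset.singleton_nonempty b, ?_⟩, rfl⟩
    · exact Finset.singleton_subset_iff.2 hab.2.1
    · exact Finset.singleton_subset_iff.2 hab.2.2
    · rw [Finset.singleton_product_singleton, Finset.singleton_subset_iff]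
      exact hab.1
  have h2 := h1.csSup_mem (kappa_set_finite G A B)
  obtain ⟨X, Y, hX, hY, hb, hk⟩ := h2
  exact ⟨X, Y, hX, hY, hb, hk⟩

lemma card_le_mu_kap {G : Finset (α × β)} {A : Finset α}
    {B : Finset β} (hne : (G ∩ A ×ˢ B).Nonempty) :
    ((G ∩ A ×ˢ B).card : ℝ) ≤ mu G * kappa G A B := by
  have h1 : 0 < kappa G A B := lt_of_lt_of_le (by norm_num) (kappa_half hne)
  have h2 : ((G ∩ A ×ˢ B).card : ℝ) / kappa G A B ≤ mu G :=
    le_csSup (mu_set_finite G).bddAbove ⟨A, B, hne, rfl⟩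
  rw [div_le_iff₀ h1] at h2
  exact h2

lemma harm_facts {a b : ℕ} (ha : 0 < a) (hb : 0 < b) :
    harm a b ≤ a ∧ harm a b ≤ b ∧ 0 ≤ harm a b ∧ 4 * harm a b ^ 2 ≤ a * b := by
  have ha' : (0 : ℝ) < a := by exact_mod_cast ha
  have hb' : (0 : ℝ) < b := by exact_mod_cast hb
  unfold harm
  refine ⟨?_, ?_, by positivity, ?_⟩
  · rw [div_le_iff₀ (by positivity)]
    nlinarith
  · rw [div_le_iff₀ (by positivity)]
    nlinarith
  · rw [div_pow, mul_div_assoc', div_le_iff₀ (by positivity)]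
    have h1 : 4 * (a * b : ℝ) ≤ (a + b : ℝ) ^ 2 := by nlinarith [sq_nonneg ((a : ℝ) - b)]
    nlinarith [mul_pos ha' hb']

lemma large_mu (G : Finset (α × β)) : Large G (mu G) := by
  intro A B hne
  obtain ⟨X, Y, hX, hY, hb, hk⟩ := kap_attained hne
  have h1 := card_le_mu_kap hne
  rw [hk] at h1
  have hG : G.Nonempty := hne.mono Finset.inter_subset_left
  have h2 := (mu_pos hG).le
  obtain ⟨h3, h4, -, -⟩ := harm_facts hb.1.card_pos hb.2.1.card_pos
  exact ⟨X, hX, Y, hY, hb.1, hb.2.1, hb.2.2, h1.trans (mul_le_mul_of_nonneg_left h3 h2),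
    h1.trans (mul_le_mul_of_nonneg_left h4 h2)⟩

lemma sparse_eta (G E : Finset (α × β)) : Sparse G E (eta G E) := by
  intro X Y hX hY h
  rcases (E ∩ X ×ˢ Y).eq_empty_or_nonempty with h0 | h0
  · rw [h0, Finset.card_empty, Nat.cast_zero, zero_mul]
    positivity
  · have h1 : eta G E ≤ ((X.card : ℝ) + Y.card) / (E ∩ X ×ˢ Y).card :=
      csInf_le (eta_set_finite G E).bddBelow ⟨X, Y, ⟨hX, hY, h⟩, h0, rfl⟩
    have h2 : (0 : ℝ) < ((E ∩ X ×ˢ Y).card : ℝ) := by exact_mod_cast h0.card_pos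
    rw [le_div_iff₀ h2] at h1
    linarith [mul_comm (eta G E) ((E ∩ X ×ˢ Y).card : ℝ)]

lemma four_card_le_mu_sq (G : Finset (α × β)) (hG : G.Nonempty) :
    4 * (G.card : ℝ) ≤ mu G ^ 2 := by
  have hu : G ∩ (Finset.univ : Finset α) ×ˢ (Finset.univ : Finset β) = G := by
    rw [Finset.univ_product_univ, Finset.inter_univ]
  have hne : (G ∩ (Finset.univ : Finset α) ×ˢ (Finset.univ : Finset β)).Nonempty := by
    rw [hu]
    exact hG
  obtain ⟨X, Y, -, -, hb, hk⟩ := kap_attained hne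
  have h1 := card_le_mu_kap hne
  rw [hk, hu] at h1
  have h2 := (mu_pos hG).le
  obtain ⟨-, -, h3, h4⟩ := harm_facts hb.1.card_pos hb.2.1.card_pos
  have h6 : ((X.card : ℝ) * Y.card) ≤ G.card := by
    have h7 := Finset.card_le_card hb.2.2
    rw [Finset.card_product] at h7
    exact_mod_cast h7
  have h8 : (0 : ℝ) < G.card := by exact_mod_cast hG.card_pos
  have h9 : (G.card : ℝ) ^ 2 ≤ (mu G * harm X.card Y.card) ^ 2 := pow_le_pow_left₀ h8.le h1 2
  have h10 : mu G ^ 2 * (4 * harm X.card Y.card ^ 2) ≤ mu G ^ 2 * G.card :=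
    mul_le_mul_of_nonneg_left (h4.trans h6) (sq_nonneg _)
  have h11 : (4 * (G.card : ℝ)) * G.card ≤ mu G ^ 2 * G.card := by nlinarith
  exact le_of_mul_le_mul_right h11 h8

lemma eta_pos {G E : Finset (α × β)} (hE : E ⊆ G)
    (hne : E.Nonempty) : 0 < eta G E ∧ eta G E ≤ 2 := by
  have hm := single_mem_eta hE hne
  refine ⟨?_, csInf_le (eta_set_finite G E).bddBelow hm⟩
  obtain ⟨S, T, hb, h0, hx⟩ := Set.Nonempty.csInf_mem ⟨_, hm⟩ (eta_set_finite G E)
  have h1 : (0 : ℝ) < ((E ∩ S ×ˢ T).card : ℝ) := by exact_mod_cast h0.card_pos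
  have h2 : (0 : ℝ) < (S.card : ℝ) := by exact_mod_cast hb.1.card_pos
  have h3 : eta G E = ((S.card : ℝ) + T.card) / (E ∩ S ×ˢ T).card := hx
  rw [h3]
  positivity

/-- The class of columns the chain starts with. -/
lemma exists_class (G E : Finset (α × β)) (H n : ℝ) (hH : 0 < H) (hHn : H ≤ n)
    (hcard : (Fintype.card α : ℝ) + Fintype.card β ≤ n) (hE : (E.card : ℝ) = 4 * n * H) :
    ∃ (D0 : ℝ) (B0 : Finset β), (∀ y ∈ B0, 2 * H ≤ ((E ∩ univ ×ˢ {y}).card : ℝ)) ∧
      (∀ y ∈ B0, D0 ≤ ((G ∩ univ ×ˢ {y}).card : ℝ) ∧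
        ((G ∩ univ ×ˢ {y}).card : ℝ) ≤ D0 + H) ∧ H ^ 2 ≤ n * B0.card := by
  have hn : 0 < n := lt_of_lt_of_le hH hHn
  have hα : (Fintype.card α : ℝ) ≤ n := by
    have : (0 : ℝ) ≤ Fintype.card β := Nat.cast_nonneg _
    linarith
  have hβ : (Fintype.card β : ℝ) ≤ n := by
    have : (0 : ℝ) ≤ Fintype.card α := Nat.cast_nonneg _
    linarith
  have hdeg : ∀ (K : Finset (α × β)) (y : β), ((K ∩ univ ×ˢ {y}).card : ℝ) ≤ n := by
    intro K y
    have h1 := card_rect_le K univ {y}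
    rw [Finset.card_singleton, Nat.cast_one, mul_one, Finset.card_univ] at h1
    exact h1.trans hα
  obtain ⟨B1, hB1⟩ : ∃ B1 : Finset β, B1 = univ.filter
    (fun y => 2 * H ≤ ((E ∩ univ ×ˢ {y}).card : ℝ)) := ⟨_, rfl⟩
  have hsum : (E.card : ℝ) = ∑ y : β, ((E ∩ univ ×ˢ {y}).card : ℝ) := by
    have h1 := card_cols E univ univ
    rw [Finset.univ_product_univ, Finset.inter_univ] at h1
    rw [h1]; push_cast; rfl
  have hB1card : 2 * H ≤ B1.card := by
    rw [hsum] at hE
    rw [← Finset.sum_filter_add_sum_filter_not univ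
      (fun y => 2 * H ≤ ((E ∩ univ ×ˢ {y}).card : ℝ)), ← hB1] at hE
    have e1 : ∑ y ∈ B1, ((E ∩ univ ×ˢ {y}).card : ℝ) ≤ B1.card * n := by
      calc ∑ y ∈ B1, ((E ∩ univ ×ˢ {y}).card : ℝ) ≤ ∑ _y ∈ B1, n :=
            Finset.sum_le_sum fun y _ => hdeg E y
        _ = _ := by rw [Finset.sum_const, nsmul_eq_mul]
    have e2 : ∑ y ∈ univ.filter (fun y => ¬ 2 * H ≤ ((E ∩ univ ×ˢ {y}).card : ℝ)),
        ((E ∩ univ ×ˢ {y}).card : ℝ) ≤ n * (2 * H) := by
      calc ∑ y ∈ univ.filter (fun y => ¬ 2 * H ≤ ((E ∩ univ ×ˢ {y}).card : ℝ)),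
          ((E ∩ univ ×ˢ {y}).card : ℝ)
          ≤ ∑ _y ∈ univ.filter (fun y => ¬ 2 * H ≤ ((E ∩ univ ×ˢ {y}).card : ℝ)), 2 * H := by
            refine Finset.sum_le_sum fun y hy => ?_
            rw [Finset.mem_filter, not_le] at hy
            exact hy.2.le
        _ = ((univ.filter (fun y => ¬ 2 * H ≤ ((E ∩ univ ×ˢ {y}).card : ℝ))).card : ℝ) *
            (2 * H) := by rw [Finset.sum_const, nsmul_eq_mul]
        _ ≤ n * (2 * H) := by
            apply mul_le_mul_of_nonneg_right _ (by positivity)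
            refine le_trans ?_ hβ
            exact_mod_cast Finset.card_le_univ _
    have e3 : n * (2 * H) ≤ n * B1.card := by linarith
    exact le_of_mul_le_mul_left e3 hn
  have hB1ne : B1.Nonempty := by
    rw [← Finset.card_pos]
    have : (0 : ℝ) < B1.card := by linarith
    exact_mod_cast this
  obtain ⟨κ, hκ⟩ : ∃ κ : β → ℕ, ∀ y, κ y = ⌊((G ∩ univ ×ˢ {y}).card : ℝ) / H⌋₊ := ⟨_, fun _ => rfl⟩
  obtain ⟨y0, hy0, hmax⟩ := Finset.exists_max_image B1
    (fun y => (B1.filter (fun z => κ z = κ y)).card) hB1ne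
  refine ⟨κ y0 * H, B1.filter (fun z => κ z = κ y0), ?_, ?_, ?_⟩
  · intro y hy
    rw [Finset.mem_filter, hB1, Finset.mem_filter] at hy
    exact hy.1.2
  · intro y hy
    rw [Finset.mem_filter] at hy
    rw [← hy.2, hκ]
    constructor
    · have := Nat.floor_le (show 0 ≤ ((G ∩ univ ×ˢ {y}).card : ℝ) / H by positivity)
      rwa [le_div_iff₀ hH] at this
    · have := Nat.lt_floor_add_one (((G ∩ univ ×ˢ {y}).card : ℝ) / H)
      rw [div_lt_iff₀ hH] at this
      linarith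
  · have h1 : B1.card ≤ (⌊n / H⌋₊ + 1) * (B1.filter (fun z => κ z = κ y0)).card := by
      have h3 : B1.card = ∑ i ∈ range (⌊n / H⌋₊ + 1), (B1.filter (fun z => κ z = i)).card :=
        Finset.card_eq_sum_card_fiberwise (fun z _ => by
          simp only [Finset.coe_range, Set.mem_Iio]
          rw [hκ]
          apply Nat.lt_succ_of_le
          apply Nat.floor_le_floor
          exact div_le_div_of_nonneg_right (hdeg G z) hH.le)
      rw [h3]
      have h4 := Finset.sum_le_card_nsmul (range (⌊n / H⌋₊ + 1))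
        (fun i => (B1.filter (fun z => κ z = i)).card) (B1.filter (fun z => κ z = κ y0)).card
        (by
          intro i _
          rcases Finset.eq_empty_or_nonempty (B1.filter (fun z => κ z = i)) with h0 | ⟨z, hz⟩
          · simp only [h0, Finset.card_empty]; exact Nat.zero_le _
          · rw [Finset.mem_filter] at hz
            rw [← hz.2]
            exact hmax z hz.1)
      rwa [Finset.card_range, smul_eq_mul] at h4
    have h2 : (B1.card : ℝ) ≤ (n / H + 1) * (B1.filter (fun z => κ z = κ y0)).card := by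
      have h3 : (B1.card : ℝ) ≤ ((⌊n / H⌋₊ : ℝ) + 1) * (B1.filter (fun z => κ z = κ y0)).card := by
        exact_mod_cast h1
      refine h3.trans (mul_le_mul_of_nonneg_right ?_ (Nat.cast_nonneg _))
      have := Nat.floor_le (show 0 ≤ n / H by positivity)
      linarith
    have h3 : n / H + 1 ≤ 2 * n / H := by
      rw [div_add_one hH.ne', div_le_div_iff_of_pos_right hH]
      linarith
    have h4 : 2 * H ≤ 2 * n / H * (B1.filter (fun z => κ z = κ y0)).card :=
      hB1card.trans (h2.trans (mul_le_mul_of_nonneg_right h3 (Nat.cast_nonneg _)))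
    have h5 : 2 * n / H * ((B1.filter (fun z => κ z = κ y0)).card : ℝ) =
        2 * n * (B1.filter (fun z => κ z = κ y0)).card / H := by ring
    rw [h5, le_div_iff₀ hH] at h4
    nlinarith

end Pool.Agent.LibBG45
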