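import Pool.Agent.BG73.Kst
import Pool.Agent.LibBG45.Basics

set_option autoImplicit false

namespace Pool.Agent.LibBG45

open Finset
open scoped Classical
open Pool.Agent.H59.Biclique

lemma sparse_density {α β : Type} (G E : Finset (α × β)) (hEG : E ⊆ G) (η l : ℝ)
    (hl : 0 < l) (hE : Sparse G E η) (s : ℕ) (hs1 : 1 ≤ s) (hs : 2 < s * η) (m0 : ℕ)
    (hm0 : Real.exp (l / 2) ≤ m0) (hsl : (s : ℝ) ≤ Real.exp (l / 4)) (A : Finset α) (B : Finset β)
    (hA : m0 ≤ A.card) (hB : m0 ≤ B.card) :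
    ((E ∩ A ×ˢ B).card : ℝ) ≤ 4 * Real.exp (-(l / (8 * s))) * A.card * B.card := by
  by_contra hcon
  push Not at hcon
  have hsr : (1 : ℝ) ≤ s := by exact_mod_cast hs1
  have hAr : Real.exp (l / 2) ≤ A.card := hm0.trans (by exact_mod_cast hA)
  have hBr : Real.exp (l / 2) ≤ B.card := hm0.trans (by exact_mod_cast hB)
  obtain ⟨z, hz⟩ : ∃ z : ℝ, z = Real.exp (-(l / (8 * s))) := ⟨_, rfl⟩
  have hz0 : 0 < z := by rw [hz]; positivity
  have hz1 : Real.exp (-(l / 8)) ≤ z := by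
    rw [hz]
    apply Real.exp_le_exp.2
    have : l / (8 * s) ≤ l / 8 := by
      apply div_le_div_of_nonneg_left hl.le (by norm_num) (by linarith)
    linarith
  have hzs : z ^ s = Real.exp (-(l / 8)) := by
    rw [hz, ← Real.exp_nat_mul]
    congr 1
    field_simp
  obtain ⟨S, hSA, T, hTB, hS, hT, hST⟩ := Pool.Agent.BG73.kst E A B (4 * z) s (by positivity) hs1
    (by rw [hz]; convert hcon.le)
    (by
      have h1 : Real.exp (-(l / 8)) * Real.exp (l / 2) ≤ z * A.card :=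
        mul_le_mul hz1 hAr (Real.exp_pos _).le hz0.le
      rw [← Real.exp_add] at h1
      have h2 : Real.exp (l / 4) ≤ Real.exp (-(l / 8) + l / 2) :=
        Real.exp_le_exp.2 (by linarith)
      linarith)
    (by
      have e1 : 4 * z / 2 * (B.card : ℝ) * (4 * z / 4) ^ s = 2 * (z * B.card * z ^ s) := by
        rw [show 4 * z / 4 = z by ring]; ring
      rw [e1, hzs]
      have h1 : Real.exp (-(l / 8)) * Real.exp (l / 2) ≤ z * B.card :=
        mul_le_mul hz1 hBr (Real.exp_pos _).le hz0.le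
      have h2 := mul_le_mul_of_nonneg_right h1 (Real.exp_pos (-(l / 8))).le
      rw [← Real.exp_add, ← Real.exp_add] at h2
      have h3 : Real.exp (l / 4) ≤ Real.exp (-(l / 8) + l / 2 + -(l / 8)) :=
        Real.exp_le_exp.2 (by linarith)
      have h4 := Real.exp_pos (l / 4)
      linarith)
  have hTpos : 1 ≤ T.card := hs1.trans hT
  have h1 := hE S T (Finset.card_pos.1 (by omega)) (Finset.card_pos.1 hTpos) (hST.trans hEG)
  rw [Finset.inter_eq_right.2 hST, Finset.card_product, hS] at h1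
  push_cast at h1
  have hTr : (s : ℝ) ≤ T.card := by exact_mod_cast hT
  have h2 : (2 : ℝ) * T.card < s * η * T.card := by
    apply mul_lt_mul_of_pos_right hs
    linarith
  nlinarith

lemma pow8_le_tow (J : ℕ) (hJ : 10 ≤ J) : J ^ 8 ≤ tow J := by
  have h1 : 8 * J ≤ 2 ^ (J - 1) := by
    induction J, hJ using Nat.le_induction with
    | base => norm_num
    | succ k hk ih =>
      have e1 : k + 1 - 1 = (k - 1) + 1 := by omega
      rw [e1, pow_succ]
      omega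
  obtain ⟨k, rfl⟩ : ∃ k, J = k + 1 := ⟨J - 1, by omega⟩
  simp only [Nat.add_sub_cancel] at h1
  calc (k + 1) ^ 8 ≤ (2 ^ (k + 1)) ^ 8 := Nat.pow_le_pow_left (Nat.lt_two_pow_self).le 8
    _ = 2 ^ (8 * (k + 1)) := by rw [← pow_mul, mul_comm]
    _ ≤ 2 ^ tow k := Nat.pow_le_pow_right (by norm_num) (h1.trans (two_pow_le_tow k))
    _ = tow (k + 1) := rfl


section numerics

lemma n_k1 {N R μ w : ℝ} (hN : 0 < N) (hR : 0 < R) (hRμ : 2 * R ≤ μ)
    (h : 4100 * N * μ < R * (R * w)) : 8200 * N < R * w := by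
  have h1 : 4100 * N * (2 * R) ≤ 4100 * N * μ := mul_le_mul_of_nonneg_left hRμ (by positivity)
  have h2 : R * (8200 * N) < R * (R * w) := by linarith
  exact lt_of_mul_lt_mul_left h2 hR.le

lemma n_big {N M l J e2 R η : ℝ} (hN : N = e2 * e2) (he2 : 0 < e2) (hR : R ^ 2 = M) (hR0 : 0 < R)
    (hη2 : η ≤ 2) (hJ : 0 < J) (hl : 0 < l) (hJl : J ^ 2 ≤ l) (hle : 1000 * l ^ 3 ≤ e2)
    (h : 8200 * N < R * (η * (J * l))) : 2 * e2 * N < M := by
  have hN0 : 0 < N := by rw [hN]; positivity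
  have h1 : 4100 * N < R * (J * l) := by
    have h2 : R * (η * (J * l)) ≤ R * (2 * (J * l)) := by
      apply mul_le_mul_of_nonneg_left _ hR0.le
      exact mul_le_mul_of_nonneg_right hη2 (by positivity)
    linarith
  have h2 : (4100 * N) ^ 2 < (R * (J * l)) ^ 2 := pow_lt_pow_left₀ h1 (by positivity) (by norm_num)
  rw [mul_pow R, hR] at h2
  have hM : 0 < M := by rw [← hR]; positivity
  have h3 : (J * l) ^ 2 ≤ l ^ 3 := by
    rw [mul_pow]
    have h5 : l ^ 3 = l * l ^ 2 := by ring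
    rw [h5]
    exact mul_le_mul_of_nonneg_right hJl (by positivity)
  have h4 : (4100 * N) ^ 2 < M * l ^ 3 :=
    lt_of_lt_of_le h2 (mul_le_mul_of_nonneg_left h3 hM.le)
  have h5 : M * l ^ 3 ≤ M * e2 := by
    apply mul_le_mul_of_nonneg_left _ hM.le
    have : 0 ≤ l ^ 3 := by positivity
    linarith
  have h6 : e2 * (2 * e2 * N) < e2 * M := by
    have h7 : e2 * (2 * e2 * N) = 2 * N ^ 2 := by
      have : e2 * (2 * e2 * N) = 2 * (e2 * e2) * N := by ring
      rw [this, ← hN]; ring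
    rw [h7]
    have h8 : 2 * N ^ 2 ≤ (4100 * N) ^ 2 := by nlinarith [sq_nonneg N]
    linarith
  exact lt_of_mul_lt_mul_left h6 he2.le

lemma n_x {x t J : ℝ} (hx0 : 0 < x) (ht0 : 0 < t) (hJ : 0 < J)
    (ht : t * Real.exp (x / 4) ^ 2 = 1) (h : 128 < t * x * J) : 8 * x < J := by
  have h1 : 1 + x / 4 ≤ Real.exp (x / 4) := by
    have := Real.add_one_le_exp (x / 4); linarith
  have h4 : t * (x / 4) ^ 2 ≤ 1 := by
    calc t * (x / 4) ^ 2 ≤ t * Real.exp (x / 4) ^ 2 := by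
          apply mul_le_mul_of_nonneg_left _ ht0.le
          exact pow_le_pow_left₀ (by positivity) (by linarith) 2
      _ = 1 := ht
  have h5 : x * 128 < x * (t * x * J) := mul_lt_mul_of_pos_left h hx0
  have h6 : x * (t * x * J) = 16 * (t * (x / 4) ^ 2) * J := by ring
  have h7 : 16 * (t * (x / 4) ^ 2) * J ≤ 16 * 1 * J := by
    apply mul_le_mul_of_nonneg_right _ hJ.le
    linarith
  linarith

lemma n_RJ {N R x J : ℝ} (hR : 0 < R) (hJ : 0 < J) (hx : 8 * x < J)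
    (h : 8200 * N < R * (32 * x * J)) (hN : 0 < N) : 2048 * N < R * J ^ 2 := by
  have h1 : R * (32 * x * J) ≤ R * (4 * J * J) := by
    apply mul_le_mul_of_nonneg_left _ hR.le
    apply mul_le_mul_of_nonneg_right _ hJ.le
    linarith
  have h2 : R * (4 * J * J) = 4 * (R * J ^ 2) := by ring
  linarith

lemma n_HJ {N R J H : ℝ} (hN : 0 < N) (hR : R ^ 2 = 4 * N * H) (h : 2048 * N < R * J ^ 2) :
    N ≤ H * J ^ 4 := by
  have h1 : (2048 * N) ^ 2 < (R * J ^ 2) ^ 2 := pow_lt_pow_left₀ h (by positivity) two_ne_zero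
  rw [mul_pow R, hR] at h1
  have h3 : 4 * N * H * (J ^ 2) ^ 2 = (4 * N) * (H * J ^ 4) := by ring
  have h2 : (4 * N) * N ≤ (4 * N) * (H * J ^ 4) := by
    rw [h3] at h1
    have h4 : (4 * N) * N ≤ (2048 * N) ^ 2 := by nlinarith [sq_nonneg N]
    linarith
  exact le_of_mul_le_mul_left h2 (by positivity)

lemma n_muH {N J H x μ : ℝ} (hN : 0 < N) (hH : 0 < H) (hJ : 0 < J) (hx : 8 * x < J)
    (h : 4100 * N * μ < 4 * N * H * (32 * x) * J) (hμ : 0 < μ) : 256 * μ ≤ H * J ^ 2 := by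
  have h2 : 4 * N * H * (32 * x) * J ≤ 4 * N * H * (4 * J) * J := by
    apply mul_le_mul_of_nonneg_right _ hJ.le
    apply mul_le_mul_of_nonneg_left _ (by positivity)
    linarith
  have h4 : 4 * N * H * (4 * J) * J = 16 * (N * (H * J ^ 2)) := by ring
  have h5 : 0 < N * μ := by positivity
  have h3 : N * (256 * μ) ≤ N * (H * J ^ 2) := by
    have h6 : N * (256 * μ) = 256 * (N * μ) := by ring
    have h7 : 4100 * N * μ = 4100 * (N * μ) := by ring
    rw [h6]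
    linarith
  exact le_of_mul_le_mul_left h3 hN

lemma n_B0 {N J H b : ℝ} (hN : 0 < N) (hHJ : N ≤ H * J ^ 4) (hb : H ^ 2 ≤ N * b) :
    N ≤ J ^ 8 * b := by
  have h1 : N * N ≤ N * (J ^ 8 * b) := by
    have h2 : N ^ 2 ≤ (H * J ^ 4) ^ 2 := pow_le_pow_left₀ hN.le hHJ 2
    have h3 : (H * J ^ 4) ^ 2 = H ^ 2 * J ^ 8 := by ring
    have h4 : H ^ 2 * J ^ 8 ≤ (N * b) * J ^ 8 :=
      mul_le_mul_of_nonneg_right hb (by positivity)
    have h5 : (N * b) * J ^ 8 = N * (J ^ 8 * b) := by ring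
    have h6 : N * N = N ^ 2 := by ring
    linarith
  exact le_of_mul_le_mul_left h1 hN

lemma n_L1 {J H μ T : ℝ} (hH : 0 < H) (hμ : 0 < μ) (h : 256 * μ ≤ H * J ^ 2) (hT : J ^ 2 ≤ T) :
    4 * μ / H ≤ T := by
  rw [div_le_iff₀ hH]
  have h1 : H * J ^ 2 ≤ H * T := mul_le_mul_of_nonneg_left hT hH.le
  linarith [mul_comm H T]

lemma n_L2 {N J H μ T : ℝ} (hH : 0 < H) (hμ : 0 < μ) (hJ : 0 < J) (h : 256 * μ ≤ H * J ^ 2)
    (hHJ : N ≤ H * J ^ 4) (hT : J ^ 6 ≤ T) : 32 * N * μ / H ^ 2 ≤ T := by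
  rw [div_le_iff₀ (by positivity)]
  have h2 : 32 * N * μ ≤ 32 * (H * J ^ 4) * μ := by
    apply mul_le_mul_of_nonneg_right _ hμ.le
    linarith
  have h3 : (H * J ^ 4) * (256 * μ) ≤ (H * J ^ 4) * (H * J ^ 2) :=
    mul_le_mul_of_nonneg_left h (by positivity)
  have h4 : (H * J ^ 4) * (H * J ^ 2) = J ^ 6 * H ^ 2 := by ring
  have h5 := mul_le_mul_of_nonneg_right hT (by positivity : (0 : ℝ) ≤ H ^ 2)
  have h6 : 0 ≤ (H * J ^ 4) * μ := by positivity
  have h7 : 32 * (H * J ^ 4) * μ = 32 * ((H * J ^ 4) * μ) := by ring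
  have h8 : (H * J ^ 4) * (256 * μ) = 256 * ((H * J ^ 4) * μ) := by ring
  linarith

lemma n_V1 {N J H l η e2 : ℝ} (hN : N = e2 * e2) (he2 : 1 ≤ e2) (hJ : 0 < J) (hl : 0 < l)
    (hη : 0 < η) (hJl : J ^ 5 ≤ l) (hle : 1000 * l ^ 3 ≤ e2) (h : 8200 < η * (J * l))
    (hHJ : N ≤ H * J ^ 4) : 2 * l ≤ η * H := by
  have hN0 : 0 < N := by rw [hN]; positivity
  have h1 : J ^ 5 * l * (2 * l) ≤ 8200 * N := by
    have h3 : J ^ 5 * l * (2 * l) ≤ l * l * (2 * l) := by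
      apply mul_le_mul_of_nonneg_right _ (by positivity)
      exact mul_le_mul_of_nonneg_right hJl hl.le
    have h4 : e2 ≤ N := by rw [hN]; nlinarith
    have h5 : l * l * (2 * l) = 2 * l ^ 3 := by ring
    have h6 : 0 ≤ l ^ 3 := by positivity
    linarith
  have h2 : 8200 * N ≤ (η * (J * l)) * (H * J ^ 4) :=
    mul_le_mul h.le hHJ hN0.le (by positivity)
  have h3 : (η * (J * l)) * (H * J ^ 4) = (J ^ 5 * l) * (η * H) := by ring
  have h4 : (J ^ 5 * l) * (2 * l) ≤ (J ^ 5 * l) * (η * H) := by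
    rw [← h3]; linarith
  exact le_of_mul_le_mul_left h4 (by positivity)

lemma n_V2 {N l e2 m V : ℝ} (hN : N = e2 * e2) (he2 : 0 < e2) (hl : 0 < l) (hV0 : 0 ≤ V)
    (hm : m ≤ 2 * e2) (hV : V ≤ 2 * l) (hle : 4 * l < e2) : m * V ≤ N := by
  have h1 : m * V ≤ (2 * e2) * (2 * l) := mul_le_mul hm hV hV0 (by positivity)
  have h2 : e2 * (4 * l) ≤ e2 * e2 := mul_le_mul_of_nonneg_left hle.le he2.le
  have h3 : (2 * e2) * (2 * l) = e2 * (4 * l) := by ring
  rw [hN]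
  linarith

lemma n_m0 {N J H l e2 m : ℝ} (hN : N = e2 * e2) (he2 : 0 < e2) (hJ : 0 < J)
    (hJl : J ^ 4 ≤ l) (hle : 4 * l < e2) (hHJ : N ≤ H * J ^ 4) (hm : m ≤ 2 * e2) : 2 * m < H := by
  have h2 : (4 * e2) * J ^ 4 < N := by
    rw [hN]
    have h3 : (4 * e2) * J ^ 4 ≤ (4 * e2) * l := mul_le_mul_of_nonneg_left hJl (by positivity)
    have h4 : e2 * (4 * l) < e2 * e2 := mul_lt_mul_of_pos_left hle he2
    have h5 : (4 * e2) * l = e2 * (4 * l) := by ring
    linarith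
  have h3 : (4 * e2) * J ^ 4 < H * J ^ 4 := lt_of_lt_of_le h2 hHJ
  have h4 : 4 * e2 < H := lt_of_mul_lt_mul_right h3 (by positivity)
  linarith

lemma n_JH {J H t μ q : ℝ} (hJ : 0 ≤ J) (hH : 0 ≤ H) (ht : 0 < t) (hμ : 0 < μ) (hq : q ≤ 4 * t ^ 2)
    (h : J ^ 2 * H ^ 2 ≤ 256 * q * μ ^ 2) : J * H ≤ 32 * t * μ := by
  have h1 : (J * H) ^ 2 ≤ (32 * t * μ) ^ 2 := by
    have h2 : 256 * q * μ ^ 2 ≤ 256 * (4 * t ^ 2) * μ ^ 2 := by
      apply mul_le_mul_of_nonneg_right _ (by positivity)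
      linarith
    have h3 : (J * H) ^ 2 = J ^ 2 * H ^ 2 := by ring
    have h4 : (32 * t * μ) ^ 2 = 256 * (4 * t ^ 2) * μ ^ 2 := by ring
    linarith
  exact le_of_sq_le_sq h1 (by positivity)

lemma n_xt {x t : ℝ} (hx : 0 < x) (ht0 : 0 < t) (ht : Real.exp (x / 2) * t = 1) : x * t ≤ 1 := by
  have h1 : x ≤ Real.exp (x / 2) := by
    have h2 := Real.add_one_le_exp (x / 2 - 1)
    have h3 : Real.exp (x / 2) = Real.exp 1 * Real.exp (x / 2 - 1) := by
      rw [← Real.exp_add]; congr 1; ring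
    rw [h3]
    have h4 : (2 : ℝ) ≤ Real.exp 1 := by linarith [Real.exp_one_gt_d9]
    have h5 : 2 * Real.exp (x / 2 - 1) ≤ Real.exp 1 * Real.exp (x / 2 - 1) :=
      mul_le_mul_of_nonneg_right h4 (Real.exp_pos _).le
    linarith
  calc x * t ≤ Real.exp (x / 2) * t := mul_le_mul_of_nonneg_right h1 ht0.le
    _ = 1 := ht

lemma n_fin {N H x J t μ : ℝ} (hN : 0 < N) (hx : 0 < x) (hμ : 0 < μ) (hJH : J * H ≤ 32 * t * μ)
    (hxt : x * t ≤ 1) : 128 * N * x * (J * H) ≤ 4100 * N * μ := by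
  have h2 : 128 * N * x * (J * H) ≤ 128 * N * x * (32 * t * μ) :=
    mul_le_mul_of_nonneg_left hJH (by positivity)
  have h3 : 128 * N * x * (32 * t * μ) = 4096 * (N * μ) * (x * t) := by ring
  have h4 : 4096 * (N * μ) * (x * t) ≤ 4096 * (N * μ) * 1 :=
    mul_le_mul_of_nonneg_left hxt (by positivity)
  have h5 : 0 < N * μ := by positivity
  have h6 : 4100 * N * μ = 4100 * (N * μ) := by ring
  linarith

lemma n_exp4 {l : ℝ} (hl : 100 ≤ l) : l ^ 2 ≤ Real.exp (l / 4) := by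
  have h1 := Real.pow_div_factorial_le_exp (l / 4) (by positivity) 4
  refine le_trans ?_ h1
  rw [show ((Nat.factorial 4 : ℕ) : ℝ) = 24 by norm_num [Nat.factorial], div_pow,
    le_div_iff₀ (by norm_num), le_div_iff₀ (by norm_num)]
  have h2 : (10000 : ℝ) ≤ l ^ 2 := by nlinarith
  have h3 : l ^ 4 = l ^ 2 * l ^ 2 := by ring
  have h4 : 0 ≤ l ^ 2 := sq_nonneg l
  nlinarith

lemma n_sizes {J T V l : ℝ} (hJ : 10 ≤ J) (h8 : J ^ 8 ≤ T) (hTV : T ≤ V)
    (hVl : V * Real.log 2 ≤ l) : 600 * J ^ 5 ≤ l ∧ V ≤ 2 * l := by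
  have h0 : 0 ≤ J ^ 8 := by positivity
  have hV0 : 0 ≤ V := h0.trans (h8.trans hTV)
  constructor
  · have hJ3 : (1000 : ℝ) ≤ J ^ 3 := by
      have := pow_le_pow_left₀ (by norm_num) hJ 3
      linarith
    have h1 : (0.69 : ℝ) ≤ Real.log 2 := by linarith [Real.log_two_gt_d9]
    have h2 : J ^ 8 * 0.69 ≤ V * Real.log 2 := mul_le_mul (h8.trans hTV) h1 (by norm_num) hV0
    have h3 : J ^ 8 = J ^ 3 * J ^ 5 := by ring
    have h4 : 1000 * J ^ 5 ≤ J ^ 3 * J ^ 5 := mul_le_mul_of_nonneg_right hJ3 (by positivity)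
    have h5 : (0 : ℝ) ≤ J ^ 5 := by positivity
    rw [h3] at h2
    linarith
  · have h1 : (0.6 : ℝ) ≤ Real.log 2 := by linarith [Real.log_two_gt_d9]
    have h2 : V * 0.6 ≤ V * Real.log 2 := mul_le_mul_of_nonneg_left h1 hV0
    linarith

end numerics

theorem upper_core (n J : ℕ) (hJ : 10 ≤ J) (hn : tow (5 * J + 1) ≤ n) {α β : Type} [Fintype α]
    [Fintype β] (G E : Finset (α × β)) (hEG : E ⊆ G) (hne : E.Nonempty)
    (hcard : Fintype.card α + Fintype.card β ≤ n) :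
    (E.card : ℝ) * eta G E * (J * Real.log n) ≤ 4100 * n * mu G := by
  by_contra hcon
  push Not at hcon
  obtain ⟨η, hηd⟩ : ∃ η, η = eta G E := ⟨_, rfl⟩
  obtain ⟨μ, hμd⟩ : ∃ μ, μ = mu G := ⟨_, rfl⟩
  obtain ⟨hη, hη2⟩ := eta_pos hEG hne
  have hμ := mu_pos (hne.mono hEG)
  have hE := sparse_eta G E
  have hF := large_mu G
  have hμsq := four_card_le_mu_sq G (hne.mono hEG)
  rw [← hηd] at hη hη2 hE hcon
  rw [← hμd] at hμ hF hμsq hcon
  obtain ⟨V, hV⟩ : ∃ V : ℕ, V = tow (5 * J) := ⟨_, rfl⟩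
  have hJr : (10 : ℝ) ≤ J := by exact_mod_cast hJ
  have hJ0 : (0 : ℝ) < J := by linarith
  have hnpos : 0 < n := lt_of_lt_of_le (tow_pos _) hn
  obtain ⟨N, hN⟩ : ∃ N : ℝ, N = n := ⟨_, rfl⟩
  have hN0 : 0 < N := by rw [hN]; exact_mod_cast hnpos
  obtain ⟨l, hl⟩ : ∃ l : ℝ, l = Real.log n := ⟨_, rfl⟩
  have hNl : N = Real.exp l := by rw [hl, Real.exp_log (by rw [← hN]; exact hN0), hN]
  rw [← hl, ← hN] at hcon
  -- sizes
  have h8 : (J : ℝ) ^ 8 ≤ tow J := by exact_mod_cast pow8_le_tow J hJ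
  have hJV : (tow J : ℝ) ≤ V := by rw [hV]; exact_mod_cast tow_mono (by omega)
  have hVl : (V : ℝ) * Real.log 2 ≤ l := by
    have h1 : 2 ^ V ≤ n := by rw [hV]; exact hn
    have h2 : (2 : ℝ) ^ V ≤ n := by exact_mod_cast h1
    have h3 := Real.log_le_log (by positivity) h2
    rwa [Real.log_pow, ← hl] at h3
  obtain ⟨hl5, hV2⟩ := n_sizes hJr h8 hJV hVl
  have hJ5 : (100000 : ℝ) ≤ (J : ℝ) ^ 5 := by
    have := pow_le_pow_left₀ (by norm_num) hJr 5
    linarith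
  have hl0 : (60000000 : ℝ) ≤ l := by linarith
  have hlpos : 0 < l := by linarith
  have hJ5l : (J : ℝ) ^ 5 ≤ l := by linarith
  have hJkl : ∀ k : ℕ, k ≤ 5 → (J : ℝ) ^ k ≤ l := fun k hk =>
    (pow_le_pow_right₀ (by linarith) hk).trans hJ5l
  have hJl : (J : ℝ) ≤ l := by simpa using hJkl 1 (by norm_num)
  -- exponentials
  have hexp4 : l ^ 2 ≤ Real.exp (l / 4) := n_exp4 (by linarith)
  obtain ⟨e2, he2⟩ : ∃ e2 : ℝ, e2 = Real.exp (l / 2) := ⟨_, rfl⟩
  have hNexp : N = e2 * e2 := by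
    rw [hNl, he2, ← Real.exp_add]; congr 1; ring
  have he2pos : 0 < e2 := by rw [he2]; positivity
  have hl4 : 1000 * l ^ 3 ≤ e2 := by
    have h1 : e2 = Real.exp (l / 4) * Real.exp (l / 4) := by
      rw [he2, ← Real.exp_add]; congr 1; ring
    have h2 : l ^ 2 * l ^ 2 ≤ e2 := by
      rw [h1]
      exact mul_le_mul hexp4 hexp4 (by positivity) (Real.exp_pos _).le
    have h3 : 1000 * l ^ 3 ≤ l * l ^ 3 :=
      mul_le_mul_of_nonneg_right (by linarith) (by positivity)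
    have h4 : l * l ^ 3 = l ^ 2 * l ^ 2 := by ring
    linarith
  have hl3 : l ≤ l ^ 3 := by
    have h3 : (1 : ℝ) ≤ l ^ 2 := one_le_pow₀ (by linarith)
    have h4 : l * 1 ≤ l * l ^ 2 := mul_le_mul_of_nonneg_left h3 hlpos.le
    have h5 : l * l ^ 2 = l ^ 3 := by ring
    linarith
  have h4le : 4 * l < e2 := by linarith
  have he21 : 1 ≤ e2 := by linarith
  -- the quantities M = |E|, R = sqrt M
  have hM : (0 : ℝ) < E.card := by exact_mod_cast hne.card_pos
  obtain ⟨R, hR⟩ : ∃ R : ℝ, R = Real.sqrt E.card := ⟨_, rfl⟩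
  have hR0 : 0 < R := by rw [hR]; exact Real.sqrt_pos.2 hM
  have hRsq : R ^ 2 = E.card := by rw [hR]; exact Real.sq_sqrt hM.le
  have hcardr : (Fintype.card α : ℝ) + Fintype.card β ≤ N := by rw [hN]; exact_mod_cast hcard
  have hα0 : (0 : ℝ) ≤ Fintype.card α := Nat.cast_nonneg _
  have hβ0 : (0 : ℝ) ≤ Fintype.card β := Nat.cast_nonneg _
  have hαβ : (Fintype.card α : ℝ) * Fintype.card β ≤ N * N :=
    mul_le_mul (by linarith) (by linarith) hβ0 hN0.le
  have hEle : (E.card : ℝ) ≤ Fintype.card α * Fintype.card β := by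
    have := Finset.card_le_univ E
    rw [Fintype.card_prod] at this
    exact_mod_cast this
  have hRN : R ≤ N := by
    have h1 : R ^ 2 ≤ N ^ 2 := by rw [hRsq, sq]; exact hEle.trans hαβ
    exact le_of_sq_le_sq h1 hN0.le
  have hRμ : 2 * R ≤ μ := by
    have h1 : (E.card : ℝ) ≤ G.card := by exact_mod_cast Finset.card_le_card hEG
    have h2 : (2 * R) ^ 2 ≤ μ ^ 2 := by rw [mul_pow, hRsq]; linarith
    exact le_of_sq_le_sq h2 hμ.le
  have k1 : 8200 * N < R * (η * (J * l)) := by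
    apply n_k1 hN0 hR0 hRμ
    have h3 : (E.card : ℝ) * η * (J * l) = R * (R * (η * (J * l))) := by rw [← hRsq]; ring
    rw [h3] at hcon
    exact hcon
  have k2 : 8200 < η * (J * l) := by
    have h1 : R * (η * (J * l)) ≤ N * (η * (J * l)) := mul_le_mul_of_nonneg_right hRN (by positivity)
    have h2 : N * 8200 < N * (η * (J * l)) := by linarith
    exact lt_of_mul_lt_mul_left h2 hN0.le
  -- the number m0
  obtain ⟨m0, hm0⟩ : ∃ m0 : ℕ, m0 = ⌈e2⌉₊ := ⟨_, rfl⟩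
  have hm01 : e2 ≤ m0 := by rw [hm0]; exact Nat.le_ceil _
  have hm02 : (m0 : ℝ) ≤ 2 * e2 := by
    have h1 := (Nat.ceil_lt_add_one he2pos.le).le
    rw [← hm0] at h1
    linarith
  have hbig : 2 * e2 * N < E.card :=
    n_big hNexp he2pos hRsq hR0 hη2 hJ0 hlpos (hJkl 2 (by norm_num)) hl4 k1
  have hα : m0 ≤ Fintype.card α := by
    by_contra h0
    push Not at h0
    have h1 : (Fintype.card α : ℝ) ≤ m0 := by exact_mod_cast h0.le
    have h2 : (Fintype.card α : ℝ) * Fintype.card β ≤ (2 * e2) * N :=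
      mul_le_mul (h1.trans hm02) (by linarith) hβ0 (by positivity)
    linarith
  have hβ : m0 ≤ Fintype.card β := by
    by_contra h0
    push Not at h0
    have h1 : (Fintype.card β : ℝ) ≤ m0 := by exact_mod_cast h0.le
    have h2 : (Fintype.card α : ℝ) * Fintype.card β ≤ N * (2 * e2) :=
      mul_le_mul (by linarith) (h1.trans hm02) hβ0 hN0.le
    linarith
  -- the number s
  obtain ⟨s, hs⟩ : ∃ s : ℕ, s = ⌊2 / η⌋₊ + 1 := ⟨_, rfl⟩
  have hs1 : 1 ≤ s := by omega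
  have hsr : (1 : ℝ) ≤ s := by exact_mod_cast hs1
  have hs2 : 2 < s * η := by
    have h1 := Nat.lt_floor_add_one (2 / η)
    rw [div_lt_iff₀ hη] at h1
    rw [hs]; push_cast; exact h1
  have hs4 : s * η ≤ 4 := by
    have h1 := Nat.floor_le (show 0 ≤ 2 / η by positivity)
    rw [le_div_iff₀ hη] at h1
    rw [hs]; push_cast
    linarith
  have hsl : (s : ℝ) ≤ Real.exp (l / 4) := by
    refine le_trans ?_ hexp4
    have h1 : (s : ℝ) * 8200 ≤ s * (η * (J * l)) := mul_le_mul_of_nonneg_left k2.le (by linarith)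
    have h2 : (s : ℝ) * (η * (J * l)) ≤ 4 * (J * l) := by
      have : (s : ℝ) * (η * (J * l)) = (s * η) * (J * l) := by ring
      rw [this]
      exact mul_le_mul_of_nonneg_right hs4 (by positivity)
    have h3 : (J : ℝ) * l ≤ l * l := mul_le_mul_of_nonneg_right hJl hlpos.le
    have h4 : l ^ 2 = l * l := sq l
    have h5 : 0 ≤ l * l := by positivity
    linarith
  have hdens : ∀ (A : Finset α) (B : Finset β), m0 ≤ A.card → m0 ≤ B.card →
      ((E ∩ A ×ˢ B).card : ℝ) ≤ 4 * Real.exp (-(l / (8 * s))) * A.card * B.card := by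
    intro A B hA hB
    exact sparse_density G E hEG η l hlpos hE s hs1 hs2 m0 (by rw [← he2]; exact hm01) hsl A B hA hB
  -- x
  obtain ⟨x, hx⟩ : ∃ x : ℝ, x = η * l / 32 := ⟨_, rfl⟩
  have hx0 : 0 < x := by rw [hx]; positivity
  have hηl : η * l = 32 * x := by rw [hx]; ring
  have hexpx : Real.exp (-(l / (8 * s))) ≤ Real.exp (-x) := by
    apply Real.exp_le_exp.2
    rw [hx]
    have h1 : η * l / 32 ≤ l / (8 * s) := by
      rw [div_le_div_iff₀ (by norm_num) (by positivity)]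
      have h2 : η * l * (8 * s) = 8 * l * (s * η) := by ring
      have h3 : 8 * l * (s * η) ≤ 8 * l * 4 := mul_le_mul_of_nonneg_left hs4 (by positivity)
      linarith
    linarith
  obtain ⟨t, ht⟩ : ∃ t : ℝ, t = Real.exp (-x / 2) := ⟨_, rfl⟩
  have ht0 : 0 < t := by rw [ht]; positivity
  have htt : Real.exp (-x) = t ^ 2 := by
    rw [ht, ← Real.exp_nat_mul]; congr 1; push_cast; ring
  obtain ⟨q, hq⟩ : ∃ q : ℝ, q = 4 * Real.exp (-(l / (8 * s))) := ⟨_, rfl⟩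
  rw [← hq] at hdens
  have hq0 : 0 < q := by rw [hq]; positivity
  have hqt : q ≤ 4 * t ^ 2 := by rw [hq, ← htt]; linarith
  have hRt : R ≤ 2 * t * N := by
    have h1 := hdens univ univ (by rwa [Finset.card_univ]) (by rwa [Finset.card_univ])
    rw [Finset.univ_product_univ, Finset.inter_univ, Finset.card_univ, Finset.card_univ,
      mul_assoc] at h1
    have h3 : (E.card : ℝ) ≤ 4 * t ^ 2 * (N * N) :=
      h1.trans (mul_le_mul hqt hαβ (by positivity) (by positivity))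
    have h4 : R ^ 2 ≤ (2 * t * N) ^ 2 := by
      have h5 : (2 * t * N) ^ 2 = 4 * t ^ 2 * (N * N) := by ring
      rw [hRsq, h5]; exact h3
    exact le_of_sq_le_sq h4 (by positivity)
  -- x is small
  have k3 : 8200 * N < R * (32 * x * J) := by
    have : R * (η * (J * l)) = R * (32 * x * J) := by rw [← hηl]; ring
    rwa [this] at k1
  have k4 : 128 < t * x * J := by
    have h1 : R * (32 * x * J) ≤ (2 * t * N) * (32 * x * J) :=
      mul_le_mul_of_nonneg_right hRt (by positivity)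
    have h3 : (2 * t * N) * (32 * x * J) = 64 * (N * (t * x * J)) := by ring
    have h2 : N * 128 < N * (t * x * J) := by linarith
    exact lt_of_mul_lt_mul_left h2 hN0.le
  have hxJ : 8 * x < J := by
    apply n_x hx0 ht0 hJ0 _ k4
    rw [ht, ← Real.exp_nat_mul, ← Real.exp_add, ← Real.exp_zero]
    congr 1; push_cast; ring
  have hRJ : 2048 * N < R * (J : ℝ) ^ 2 := n_RJ hR0 hJ0 hxJ k3 hN0
  obtain ⟨H, hH⟩ : ∃ H : ℝ, H = E.card / (4 * N) := ⟨_, rfl⟩
  have hH0 : 0 < H := by rw [hH]; exact div_pos hM (by linarith)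
  have hEH : (E.card : ℝ) = 4 * N * H := by
    rw [hH, mul_div_cancel₀ _ (by linarith : (4 * N : ℝ) ≠ 0)]
  have hHJ : N ≤ H * (J : ℝ) ^ 4 := n_HJ hN0 (by rw [hRsq, hEH]) hRJ
  have hHN : H ≤ N := by
    rw [hH, div_le_iff₀ (by linarith)]
    have h1 : (E.card : ℝ) ≤ N * N := hEle.trans hαβ
    have h2 : N * (4 * N) = 4 * (N * N) := by ring
    have h3 : 0 < N * N := by positivity
    linarith
  have hcon' : 4100 * N * μ < 4 * N * H * (32 * x) * J := by
    have h1 : (E.card : ℝ) * η * (J * l) = 4 * N * H * (32 * x) * J := by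
      rw [hEH, ← hηl]; ring
    rwa [h1] at hcon
  have hμH : 256 * μ ≤ H * (J : ℝ) ^ 2 := n_muH hN0 hH0 hJ0 hxJ hcon' hμ
  obtain ⟨D0, B0, hdE, hdG, hB0⟩ := exists_class G E H N hH0 hHN hcardr hEH
  have hJpow : ∀ k : ℕ, k ≤ 8 → (J : ℝ) ^ k ≤ tow J := by
    intro k hk
    exact (pow_le_pow_right₀ (by linarith) hk).trans h8
  have hq4 : q ≤ 4 := by
    rw [hq]
    have : Real.exp (-(l / (8 * s))) ≤ 1 := by
      rw [← Real.exp_zero]
      apply Real.exp_le_exp.2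
      have : 0 ≤ l / (8 * s) := by positivity
      linarith
    linarith
  have hchain := chain G E hEG N μ η q H D0 J J m0 B0 hcardr hN0 hμ hη hq0 hq4 hH0 hF hE
    hdens hdE hdG
    ((n_B0 hN0 hHJ hB0).trans (mul_le_mul_of_nonneg_right h8 (Nat.cast_nonneg _)))
    (by
      have h1 : (16 : ℝ) ≤ tow J := by
        have h2 := hJpow 2 (by norm_num)
        have h3 : (10 : ℝ) ^ 2 ≤ (J : ℝ) ^ 2 := pow_le_pow_left₀ (by norm_num) hJr 2
        linarith
      exact_mod_cast h1)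
    (n_L1 hH0 hμ hμH (hJpow 2 (by norm_num)))
    (n_L2 hH0 hμ hJ0 hμH hHJ (hJpow 6 (by norm_num)))
    (by
      rw [show J + 4 * J = 5 * J by ring, ← hV]
      exact hV2.trans (n_V1 hNexp he21 hJ0 hlpos hη hJ5l hl4 k2 hHJ))
    (by
      rw [show J + 4 * J = 5 * J by ring, ← hV]
      exact n_V2 hNexp he2pos hlpos (Nat.cast_nonneg _) hm02 hV2 h4le)
    (n_m0 hNexp he2pos hJ0 (hJkl 4 (by norm_num)) h4le hHJ hm02)
  -- conclusion
  have hJH : J * H ≤ 32 * t * μ := n_JH hJ0.le hH0.le ht0 hμ hqt hchain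
  have hxt : x * t ≤ 1 := by
    apply n_xt hx0 ht0
    rw [ht, ← Real.exp_add, ← Real.exp_zero]; congr 1; ring
  have h1 := n_fin hN0 hx0 hμ hJH hxt
  have h2 : 4 * N * H * (32 * x) * J = 128 * N * x * (J * H) := by ring
  rw [h2] at hcon'
  linarith

end Pool.Agent.LibBG45
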