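import Pool.Agent.LibBG45.Tower

/-
The stage lemma for the upper bound: rectangles are removed greedily and the columns are divided
into types.
-/

set_option autoImplicit false

namespace Pool.Agent.LibBG45

open Finset
open scoped Classical

variable {α β : Type}

/-- every induced subgraph with at least one edge contains a biclique with both sides at least
`e / μ`, where `e` is its number of edges -/
def Large (G : Finset (α × β)) (μ : ℝ) : Prop :=
  ∀ (A : Finset α) (B : Finset β), (G ∩ A ×ˢ B).Nonempty → ∃ S ⊆ A, ∃ T ⊆ B,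
    S.Nonempty ∧ T.Nonempty ∧ S ×ˢ T ⊆ G ∧ ((G ∩ A ×ˢ B).card : ℝ) ≤ μ * S.card ∧
    ((G ∩ A ×ˢ B).card : ℝ) ≤ μ * T.card

lemma greedy (G : Finset (α × β)) (μ : ℝ) (hF : Large G μ) (B : Finset β) (y : ℝ) (hy : 0 < y) :
    ∀ (m : ℕ) (A : Finset α), A.card ≤ m → ∃ F : Finset (Finset α × Finset β),
      (∀ P ∈ F, P.1 ⊆ A ∧ P.2 ⊆ B ∧ P.1 ×ˢ P.2 ⊆ G ∧ y ≤ μ * P.1.card ∧ y ≤ μ * P.2.card) ∧
      (F : Set (Finset α × Finset β)).PairwiseDisjoint Prod.fst ∧
      ((G ∩ (A \ F.biUnion Prod.fst) ×ˢ B).card : ℝ) < y := by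
  intro m
  induction m with
  | zero =>
    intro A hA
    refine ⟨∅, by simp, by simp, ?_⟩
    have : A = ∅ := by rw [← Finset.card_eq_zero]; omega
    subst this
    simpa using hy
  | succ m ih =>
    intro A hA
    by_cases hlt : ((G ∩ A ×ˢ B).card : ℝ) < y
    · exact ⟨∅, by simp, by simp, by simpa using hlt⟩
    push Not at hlt
    have hne : (G ∩ A ×ˢ B).Nonempty := by
      rw [← Finset.card_pos]
      have : (0 : ℝ) < (G ∩ A ×ˢ B).card := lt_of_lt_of_le hy hlt
      exact_mod_cast this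
    obtain ⟨S, hSA, T, hTB, hS, hT, hST, h1, h2⟩ := hF A B hne
    have hcard : (A \ S).card ≤ m := by
      have e1 := Finset.card_sdiff_add_card_eq_card hSA
      have e2 := hS.card_pos
      omega
    obtain ⟨F, hF1, hF2, hF3⟩ := ih (A \ S) hcard
    have hdisj : ∀ P ∈ F, Disjoint S P.1 := by
      intro P hP
      have := (hF1 P hP).1
      rw [Finset.disjoint_left]
      intro x hx hx'
      exact (Finset.mem_sdiff.1 (this hx')).2 hx
    refine ⟨insert (S, T) F, ?_, ?_, ?_⟩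
    · intro P hP
      rw [Finset.mem_insert] at hP
      rcases hP with rfl | hP
      · exact ⟨hSA, hTB, hST, hlt.trans h1, hlt.trans h2⟩
      · obtain ⟨a, b⟩ := hF1 P hP
        exact ⟨a.trans Finset.sdiff_subset, b⟩
    · rw [Finset.coe_insert, Set.pairwiseDisjoint_insert]
      exact ⟨hF2, fun P hP _ => hdisj P hP⟩
    · have e1 : A \ (insert (S, T) F).biUnion Prod.fst = (A \ S) \ F.biUnion Prod.fst := by
        rw [Finset.biUnion_insert]
        ext x
        simp only [Finset.mem_sdiff, Finset.mem_union, not_or]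
        tauto
      rw [e1]
      exact hF3

lemma types (B : Finset β) (hB : B.Nonempty) (F : Finset (Finset α × Finset β))
    (hdis : (F : Set (Finset α × Finset β)).PairwiseDisjoint Prod.fst)
    (hT : ∀ P ∈ F, P.2 ⊆ B) (g n : ℝ) (hg0 : 0 < g) (hn : ((F.biUnion Prod.fst).card : ℝ) ≤ n)
    (hg : g * B.card ≤ ∑ P ∈ F, (P.1.card : ℝ) * P.2.card) :
    ∃ I ⊆ F, ∃ B' ⊆ B, B'.Nonempty ∧ (∀ P ∈ I, B' ⊆ P.2) ∧
      g / 2 ≤ (I.biUnion Prod.fst).card ∧ g * B.card ≤ 2 * n * (2 ^ F.card * B'.card) := by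
  obtain ⟨τ, hτ⟩ : ∃ τ : β → Finset (Finset α × Finset β), ∀ y, τ y = F.filter (fun P => y ∈ P.2) :=
    ⟨_, fun _ => rfl⟩
  obtain ⟨W, hW⟩ : ∃ W : β → ℝ, ∀ y, W y = (((τ y).biUnion Prod.fst).card : ℝ) := ⟨_, fun _ => rfl⟩
  have hτF : ∀ y, τ y ⊆ F := fun y => by rw [hτ]; exact Finset.filter_subset _ _
  have hWsum : ∀ y, W y = ∑ P ∈ F, if y ∈ P.2 then (P.1.card : ℝ) else 0 := by
    intro y
    rw [hW, Finset.card_biUnion]
    · push_cast
      rw [hτ, Finset.sum_filter]
    · intro P hP Q hQ hne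
      exact hdis (hτF y hP) (hτF y hQ) hne
  have hWn : ∀ y, W y ≤ n := by
    intro y
    refine le_trans ?_ hn
    rw [hW]
    exact_mod_cast Finset.card_le_card (Finset.biUnion_subset_biUnion_of_subset_left _ (hτF y))
  have hW0 : ∀ y, 0 ≤ W y := fun y => by rw [hW]; positivity
  have hsum : ∑ y ∈ B, W y = ∑ P ∈ F, (P.1.card : ℝ) * P.2.card := by
    simp_rw [hWsum]
    rw [Finset.sum_comm]
    refine Finset.sum_congr rfl fun P hP => ?_
    rw [← Finset.sum_filter, Finset.sum_const, nsmul_eq_mul, mul_comm]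
    congr 2
    have h1 : B.filter (fun y => y ∈ P.2) = P.2 := by
      ext y
      rw [Finset.mem_filter]
      exact ⟨fun h => h.2, fun h => ⟨hT P hP h, h⟩⟩
    rw [h1]
  obtain ⟨B1, hB1⟩ : ∃ B1 : Finset β, B1 = B.filter (fun y => g / 2 ≤ W y) := ⟨_, rfl⟩
  have hB1B : B1 ⊆ B := by rw [hB1]; exact Finset.filter_subset _ _
  have h1 : g * B.card ≤ n * B1.card + g / 2 * B.card := by
    rw [← hsum] at hg
    refine hg.trans ?_
    rw [← Finset.sum_filter_add_sum_filter_not B (fun y => g / 2 ≤ W y) W, ← hB1]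
    have e1 : ∑ y ∈ B1, W y ≤ n * B1.card := by
      calc ∑ y ∈ B1, W y ≤ ∑ _y ∈ B1, n := Finset.sum_le_sum fun y _ => hWn y
        _ = n * B1.card := by rw [Finset.sum_const, nsmul_eq_mul, mul_comm]
    have e2 : ∑ y ∈ B.filter (fun y => ¬ g / 2 ≤ W y), W y ≤ g / 2 * B.card := by
      calc ∑ y ∈ B.filter (fun y => ¬ g / 2 ≤ W y), W y
          ≤ ∑ _y ∈ B.filter (fun y => ¬ g / 2 ≤ W y), g / 2 := by
            refine Finset.sum_le_sum fun y hy => ?_
            rw [Finset.mem_filter, not_le] at hy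
            exact hy.2.le
        _ = g / 2 * (B.filter (fun y => ¬ g / 2 ≤ W y)).card := by
            rw [Finset.sum_const, nsmul_eq_mul, mul_comm]
        _ ≤ g / 2 * B.card := by
            apply mul_le_mul_of_nonneg_left _ (by linarith)
            exact_mod_cast Finset.card_le_card (Finset.filter_subset _ _)
    linarith
  have hBpos : (0 : ℝ) < B.card := by exact_mod_cast hB.card_pos
  have hB1ne : B1.Nonempty := by
    rw [Finset.nonempty_iff_ne_empty]
    intro h0
    rw [h0, Finset.card_empty] at h1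
    push_cast at h1
    nlinarith
  obtain ⟨y0, hy0, hmax⟩ := Finset.exists_max_image B1
    (fun y => (B1.filter (fun z => τ z = τ y)).card) hB1ne
  refine ⟨τ y0, hτF y0, B1.filter (fun z => τ z = τ y0), (Finset.filter_subset _ _).trans hB1B,
    ⟨y0, by rw [Finset.mem_filter]; exact ⟨hy0, rfl⟩⟩, ?_, ?_, ?_⟩
  · intro P hP z hz
    rw [Finset.mem_filter] at hz
    rw [← hz.2, hτ, Finset.mem_filter] at hP
    exact hP.2
  · rw [hB1, Finset.mem_filter, hW] at hy0
    exact hy0.2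
  · have h2 : B1.card ≤ 2 ^ F.card * (B1.filter (fun z => τ z = τ y0)).card := by
      have h3 : B1.card = ∑ I ∈ F.powerset, (B1.filter (fun z => τ z = I)).card :=
        Finset.card_eq_sum_card_fiberwise (fun z _ => by
          simp only [Finset.coe_powerset, Set.mem_preimage, Set.mem_powerset_iff, Finset.coe_subset]
          exact hτF z)
      rw [h3, ← Finset.card_powerset, ← smul_eq_mul]
      apply Finset.sum_le_card_nsmul
      intro I _
      rcases Finset.eq_empty_or_nonempty (B1.filter (fun z => τ z = I)) with h0 | ⟨z, hz⟩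
      · rw [h0, Finset.card_empty]; exact Nat.zero_le _
      · rw [Finset.mem_filter] at hz
        rw [← hz.2]
        exact hmax z hz.1
    have h3 : (B1.card : ℝ) ≤ 2 ^ F.card * (B1.filter (fun z => τ z = τ y0)).card := by
      exact_mod_cast h2
    have hn0 : 0 ≤ n := le_trans (Nat.cast_nonneg _) hn
    have h4 := mul_le_mul_of_nonneg_left h3 hn0
    nlinarith

/-- One stage. -/
lemma stage [Fintype α] (G : Finset (α × β)) (μ : ℝ) (hμ : 0 < μ) (hF : Large G μ)
    (n : ℝ) (hn : (Fintype.card α : ℝ) ≤ n) (hn0 : 0 < n)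
    (U : Finset α) (B : Finset β) (hUB : U ×ˢ B ⊆ G) (hB : B.Nonempty) (y w : ℝ) (hy : 0 < y)
    (hw : 0 < w)
    (hW : ∀ W ⊆ Uᶜ, ((G ∩ (Uᶜ \ W) ×ˢ B).card : ℝ) < y → w ≤ W.card) :
    ∃ (U' : Finset α) (B' : Finset β), U ⊆ U' ∧ B' ⊆ B ∧ U' ×ˢ B' ⊆ G ∧ B'.Nonempty ∧
      (U.card : ℝ) + w * y / (2 * μ * B.card) ≤ U'.card ∧
      w * y / μ ≤ 2 * n * ((2 : ℝ) ^ (n * μ / y) * B'.card) := by
  obtain ⟨F, hF1, hF2, hF3⟩ := greedy G μ hF B y hy _ (Uᶜ) le_rfl
  obtain ⟨W, hWd⟩ : ∃ W : Finset α, W = F.biUnion Prod.fst := ⟨_, rfl⟩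
  have hWU : W ⊆ Uᶜ := by
    rw [hWd]
    apply Finset.biUnion_subset.2
    intro P hP
    exact (hF1 P hP).1
  have hww : w ≤ W.card := hW W hWU (by rw [hWd]; exact hF3)
  have hBpos : (0 : ℝ) < B.card := by exact_mod_cast hB.card_pos
  have hWcard : (W.card : ℝ) = ∑ P ∈ F, (P.1.card : ℝ) := by
    rw [hWd, Finset.card_biUnion hF2]; push_cast; rfl
  have hWn : (W.card : ℝ) ≤ n := by
    refine le_trans ?_ hn
    exact_mod_cast Finset.card_le_univ W
  have hr : (F.card : ℝ) ≤ n * μ / y := by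
    rw [le_div_iff₀ hy]
    calc (F.card : ℝ) * y = ∑ _P ∈ F, y := by rw [Finset.sum_const, nsmul_eq_mul]
      _ ≤ ∑ P ∈ F, μ * (P.1.card : ℝ) := Finset.sum_le_sum fun P hP => (hF1 P hP).2.2.2.1
      _ = μ * W.card := by rw [← Finset.mul_sum, hWcard]
      _ ≤ μ * n := mul_le_mul_of_nonneg_left hWn hμ.le
      _ = n * μ := mul_comm _ _
  have hgsum : w * y / μ ≤ ∑ P ∈ F, (P.1.card : ℝ) * P.2.card := by
    have h1 : (W.card : ℝ) * (y / μ) ≤ ∑ P ∈ F, (P.1.card : ℝ) * P.2.card := by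
      rw [hWcard, Finset.sum_mul]
      refine Finset.sum_le_sum fun P hP => ?_
      apply mul_le_mul_of_nonneg_left _ (Nat.cast_nonneg _)
      rw [div_le_iff₀ hμ, mul_comm]
      exact (hF1 P hP).2.2.2.2
    have h2 : w * (y / μ) ≤ (W.card : ℝ) * (y / μ) :=
      mul_le_mul_of_nonneg_right hww (by positivity)
    have h3 : w * y / μ = w * (y / μ) := by ring
    linarith
  obtain ⟨I, hIF, B', hB'B, hB'ne, hIB, hI1, hI2⟩ := types B hB F hF2
    (fun P hP => (hF1 P hP).2.1) (w * y / (μ * B.card)) n (by positivity)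
    (by rw [← hWd]; exact hWn)
    (by
      have : w * y / (μ * B.card) * B.card = w * y / μ := by field_simp
      rw [this]; exact hgsum)
  refine ⟨U ∪ I.biUnion Prod.fst, B', Finset.subset_union_left, hB'B, ?_, hB'ne, ?_, ?_⟩
  · intro e he
    rw [Finset.mem_product, Finset.mem_union] at he
    rcases he.1 with h | h
    · exact hUB (Finset.mem_product.2 ⟨h, hB'B he.2⟩)
    · rw [Finset.mem_biUnion] at h
      obtain ⟨P, hP, hx⟩ := h
      exact (hF1 P (hIF hP)).2.2.1 (Finset.mem_product.2 ⟨hx, hIB P hP he.2⟩)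
  · rw [Finset.card_union_of_disjoint]
    · push_cast
      have h1 : w * y / (2 * μ * B.card) = w * y / (μ * B.card) / 2 := by field_simp
      rw [h1]
      linarith
    · rw [Finset.disjoint_left]
      intro x hx hx'
      have h1 : x ∈ W := by
        rw [hWd]
        exact Finset.biUnion_subset_biUnion_of_subset_left _ hIF hx'
      exact (Finset.mem_compl.1 (hWU h1)) hx
  · have h1 : w * y / (μ * B.card) * B.card = w * y / μ := by field_simp
    rw [h1] at hI2
    refine hI2.trans ?_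
    apply mul_le_mul_of_nonneg_left _ (by linarith)
    apply mul_le_mul_of_nonneg_right _ (Nat.cast_nonneg _)
    rw [← Real.rpow_natCast]
    exact Real.rpow_le_rpow_of_exponent_le (by norm_num) hr

end Pool.Agent.LibBG45
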