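import Mathlib

set_option autoImplicit false

namespace Pool.Agent.LibBG45

/-- The tower function: `tow 0 = 1`, `tow (k+1) = 2 ^ tow k`. -/
def tow : ℕ → ℕ
  | 0 => 1
  | k + 1 => 2 ^ tow k

/-- The iterated (binary) logarithm: the largest `k` with `tow k ≤ n` (and `0` for `n = 0`). -/
def logStar (n : ℕ) : ℕ := Nat.findGreatest (fun k => tow k ≤ n) n

lemma lt_tow (k : ℕ) : k < tow k := by
  induction k with
  | zero => simp [tow]
  | succ k ih =>
    have h1 : tow k + 1 ≤ 2 ^ tow k := Nat.lt_two_pow_self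
    simp only [tow]; omega

lemma tow_pos (k : ℕ) : 0 < tow k := lt_of_le_of_lt (Nat.zero_le _) (lt_tow k)

lemma tow_lt_succ (k : ℕ) : tow k < tow (k + 1) := by
  simp only [tow]; exact Nat.lt_two_pow_self

lemma tow_strictMono : StrictMono tow := strictMono_nat_of_lt_succ tow_lt_succ

lemma tow_mono {a b : ℕ} (h : a ≤ b) : tow a ≤ tow b := tow_strictMono.monotone h

lemma two_pow_le_tow (k : ℕ) : 2 ^ k ≤ tow k := by
  cases k with
  | zero => simp [tow]
  | succ k =>
    simp only [tow]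
    exact Nat.pow_le_pow_right (by norm_num) (lt_tow k)

lemma sum_inv_tow (L : ℕ) : ∑ i ∈ Finset.range L, 1 / (tow i : ℝ) ≤ 2 := by
  have h1 : ∑ i ∈ Finset.range L, 1 / (tow i : ℝ) ≤ ∑ i ∈ Finset.range L, (1 / 2 : ℝ) ^ i := by
    refine Finset.sum_le_sum fun i _ => ?_
    rw [one_div_pow]
    apply one_div_le_one_div_of_le (by positivity)
    exact_mod_cast two_pow_le_tow i
  refine h1.trans ?_
  have h2 := Summable.sum_le_tsum (Finset.range L) (fun i _ => by positivity)
    (summable_geometric_two)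
  rw [tsum_geometric_two] at h2
  exact h2

lemma lt_tow_logStar_succ (n : ℕ) : n < tow (logStar n + 1) := by
  rcases Nat.lt_or_ge n (logStar n + 1) with h | h
  · exact lt_trans h (lt_tow _)
  · have h1 := Nat.findGreatest_is_greatest (P := fun k => tow k ≤ n) (n := n)
      (k := logStar n + 1) (Nat.lt_succ_self _) h
    exact not_le.1 h1

lemma tow_logStar_le {n : ℕ} (hn : 1 ≤ n) : tow (logStar n) ≤ n := by
  have := Nat.findGreatest_spec (P := fun k => tow k ≤ n) (m := 0) (n := n) (Nat.zero_le _)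
    (by simpa [tow] using hn)
  exact this

lemma le_logStar {n k : ℕ} (h : tow k ≤ n) : k ≤ logStar n :=
  Nat.le_findGreatest ((lt_tow k).le.trans h) h

lemma one_le_logStar {n : ℕ} (hn : 2 ≤ n) : 1 ≤ logStar n := le_logStar (by simpa [tow] using hn)

/-- the scale of a set of `a` points among `N` -/
lemma exists_scale {N L a : ℕ} (hL : N < tow L) (ha : 1 ≤ a) (haN : a ≤ N) :
    ∃ i < L, a * tow i ^ 2 ≤ N ∧ N < a * tow (i + 1) ^ 2 := by
  have hex : ∃ m, N < a * tow m ^ 2 := by
    refine ⟨L, ?_⟩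
    have h1 : tow L ≤ tow L ^ 2 := Nat.le_self_pow (by norm_num) _
    calc N < tow L := hL
      _ ≤ tow L ^ 2 := h1
      _ ≤ a * tow L ^ 2 := Nat.le_mul_of_pos_left _ ha
  classical
  obtain ⟨m, hm⟩ : ∃ m, m = Nat.find hex := ⟨_, rfl⟩
  have h1 : N < a * tow m ^ 2 := by rw [hm]; exact Nat.find_spec hex
  have h0 : m ≠ 0 := by
    rintro rfl
    simp only [tow, one_pow, mul_one] at h1
    omega
  obtain ⟨i, rfl⟩ : ∃ i, m = i + 1 := ⟨m - 1, by omega⟩
  have h2 : a * tow i ^ 2 ≤ N := by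
    by_contra hcon
    push Not at hcon
    have := Nat.find_min' hex hcon
    omega
  refine ⟨i, ?_, h2, h1⟩
  by_contra hcon
  push Not at hcon
  have h3 := tow_mono hcon
  have h4 : tow i ≤ tow i ^ 2 := Nat.le_self_pow (by norm_num) _
  have h5 : tow i ^ 2 ≤ a * tow i ^ 2 := Nat.le_mul_of_pos_left _ ha
  omega

end Pool.Agent.LibBG45
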